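import Pool.Agent.MP5b7155.Defs

namespace Pool.Agent.MP5b7155

open Matrix ComplexConjugate

lemma form_comm (X Y : Herm) : form X Y = form Y X := by
  simp only [form, Complex.mul_re, Complex.conj_re, Complex.conj_im]
  ring

lemma form_add_right (X Y Z : Herm) : form X (Y + Z) = form X Y + form X Z := by
  simp only [form, Prod.fst_add, Prod.snd_add, map_add, Complex.mul_re, Complex.conj_re,
    Complex.conj_im, Complex.add_re, Complex.add_im]
  ring

lemma form_smul_right (c : ℝ) (X Y : Herm) : form X (c • Y) = c * form X Y := by
  simp only [form, Prod.smul_fst, Prod.smul_snd, smul_eq_mul, Complex.mul_re, Complex.conj_re,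
    Complex.conj_im, Complex.real_smul, Complex.mul_im, Complex.ofReal_re, Complex.ofReal_im]
  ring

lemma form_add_left (X Y Z : Herm) : form (X + Y) Z = form X Z + form Y Z := by
  rw [form_comm, form_add_right, form_comm Z X, form_comm Z Y]

lemma form_smul_left (c : ℝ) (X Y : Herm) : form (c • X) Y = c * form X Y := by
  rw [form_comm, form_smul_right, form_comm]

lemma form_neg_left (X Y : Herm) : form (-X) Y = - form X Y := by
  have := form_smul_left (-1) X Y
  simpa using this

lemma form_neg_right (X Y : Herm) : form X (-Y) = - form X Y := by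
  rw [form_comm, form_neg_left, form_comm]

lemma det_mat (X : Herm) : (mat X).det = ((form X X : ℝ) : ℂ) := by
  apply Complex.ext
  · simp [mat, form, Matrix.det_fin_two_of]; ring
  · simp [mat, form, Matrix.det_fin_two_of]; ring

lemma form_self_isom {g : Iso} (hg : IsIsom g) (X : Herm) : form (g X) (g X) = form X X := by
  have key : ((form (g X) (g X) : ℝ) : ℂ) = ((form X X : ℝ) : ℂ) := by
    rw [← det_mat, ← det_mat]
    rcases hg with ⟨b, hdet, hb⟩ | ⟨b, hdet, hb⟩
    · rw [hb X, Matrix.det_mul, Matrix.det_mul, Matrix.det_conjTranspose, hdet]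
      simp
    · rw [hb X, Matrix.det_mul, Matrix.det_mul, Matrix.det_conjTranspose, Matrix.det_transpose,
        hdet]
      simp
  exact_mod_cast key

lemma form_isom {g : Iso} (hg : IsIsom g) (X Y : Herm) : form (g X) (g Y) = form X Y := by
  have h1 := form_self_isom hg (X + Y)
  have h2 := form_self_isom hg X
  have h3 := form_self_isom hg Y
  rw [map_add] at h1
  simp only [form_add_left, form_add_right] at h1
  rw [form_comm (g Y) (g X), form_comm Y X] at h1
  linarith

end Pool.Agent.MP5b7155
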