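import Pool.Agent.MP5b7155.OneCusp

namespace Pool.Agent.MP5b7155

open Matrix ComplexConjugate

variable {Γ G : Subgroup Iso} {N : Herm}

lemma off_apply (hG : ∀ g ∈ G, IsIsom g) {x : Herm} (hx : Off G N x) {g : Iso} (hg : g ∈ G) :
    Off G N (g x) := by
  intro M hM h0
  have hc : g (g⁻¹ M) = M := by
    change (g * g⁻¹) M = M
    rw [mul_inv_cancel]; rfl
  apply hx (g⁻¹ M) (apply_mem_walls hM (G.inv_mem hg))
  rw [← form_isom (hG g hg), hc]
  exact h0

/-- parity of a product -/
lemma even_mul (hG : ∀ g ∈ G, IsIsom g) (hfin : ∀ x ∈ H3, ∀ y ∈ H3, (sep G N x y).Finite)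
    {x : Herm} (hx : x ∈ H3) (ox : Off G N x) {g h : Iso} (hg : g ∈ G) (hh : h ∈ G) :
    Even (sep G N x ((g * h) x)).ncard ↔
      (Even (sep G N x (g x)).ncard ↔ Even (sep G N x (h x)).ncard) := by
  have hgx := isom_H3 (hG g hg) hx
  have hhx := isom_H3 (hG h hh) hx
  have hghx : g (h x) ∈ H3 := isom_H3 (hG g hg) hhx
  obtain ⟨k, hk⟩ := sep_add hfin hx hgx hghx ox (off_apply hG ox hg)
    (off_apply hG (off_apply hG ox hh) hg)
  rw [ncard_sep_apply hG hg] at hk
  change Even (sep G N x (g (h x))).ncard ↔ _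
  rw [← Nat.even_add, hk]
  simp [Nat.even_add]

lemma even_inv (hG : ∀ g ∈ G, IsIsom g) {x : Herm} {g : Iso} (hg : g ∈ G) :
    (sep G N x (g⁻¹ x)).ncard = (sep G N x (g x)).ncard := by
  have h1 := ncard_sep_apply (N := N) hG hg x (g⁻¹ x)
  have hc : g (g⁻¹ x) = x := by
    change (g * g⁻¹) x = x
    rw [mul_inv_cancel]; rfl
  rw [hc] at h1
  rw [← h1, ncard_sep_comm]

/-- the parity does not depend on the base point -/
lemma even_base (hG : ∀ g ∈ G, IsIsom g) (hfin : ∀ x ∈ H3, ∀ y ∈ H3, (sep G N x y).Finite)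
    {x y : Herm} (hx : x ∈ H3) (hy : y ∈ H3) (ox : Off G N x) (oy : Off G N y) {g : Iso}
    (hg : g ∈ G) (he : Even (sep G N x (g x)).ncard) : Even (sep G N y (g y)).ncard := by
  have hgx := isom_H3 (hG g hg) hx
  have hgy := isom_H3 (hG g hg) hy
  have ogx := off_apply hG ox hg
  have ogy := off_apply hG oy hg
  obtain ⟨k, hk⟩ := sep_add hfin hy hx hgx oy ox ogx
  obtain ⟨l, hl⟩ := sep_add hfin hy hgx hgy oy ogx ogy
  have h1 : (sep G N (g x) (g y)).ncard = (sep G N y x).ncard := by
    rw [ncard_sep_apply hG hg, ncard_sep_comm]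
  rw [h1] at hl
  rw [Nat.even_iff] at he ⊢
  omega

/-- a point in general position near the cusp -/
lemma exists_deep (hG : ∀ g ∈ G, IsIsom g) (hd : IsDiscrete G) (hle : Γ ≤ G)
    (hcl : CoversClosedSurface Γ N) {μ : Iso} (hμG : μ ∈ G) {v : Herm} (hv : IsNull v)
    (hdisp : ∀ X, form X (μ X) = form X X + 2 * (form X v) ^ 2) :
    ∃ x ∈ H3, Off G N x ∧ ∀ p ∈ G, p v = v → sep G N x (p x) = ∅ := by
  obtain ⟨c₁, hc₁, hw⟩ := horoball hG hd hle hcl hμG hv hdisp
  obtain ⟨x, hx, hxv⟩ := deep_point hv hc₁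
  refine ⟨x, hx, ?_, fun p hp hpv => sep_peripheral hG hv hw hx hxv hp hpv⟩
  intro M hM h0
  have := hw M hM x hx h0
  linarith

/-- all elements of the overgroup cross an even number of walls -/
theorem even_sep (hΓ : KnotLike Γ) (hG : ∀ g ∈ G, IsIsom g) (hd : IsDiscrete G)
    (hle : Γ ≤ G) (hfi : Γ.relIndex G ≠ 0) (hcl : CoversClosedSurface Γ N) {y : Herm}
    (hy : y ∈ H3) (oy : Off G N y) {g : Iso} (hg : g ∈ G) : Even (sep G N y (g y)).ncard := by
  have hfin : ∀ x ∈ H3, ∀ y ∈ H3, (sep G N x y).Finite := fun x hx y hy =>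
    sep_finite hG hd hle hcl hx hy
  obtain ⟨μ, hpar, hnc⟩ := hΓ.meridian
  obtain ⟨v, hv, hμv, hdisp⟩ := parabolic_data hpar
  have hμG : (μ : Iso) ∈ G := hle μ.2
  obtain ⟨x, hx, ox, hper⟩ := exists_deep hG hd hle hcl hμG hv hdisp
  apply even_base hG hfin hx hy ox oy hg
  -- the elements of the knot group
  let E : Subgroup Γ :=
    { carrier := {γ | Even (sep G N x ((γ : Iso) x)).ncard}
      mul_mem' := by
        intro a b ha hb
        have := (even_mul hG hfin hx ox (hle a.2) (hle b.2)).2 (iff_of_true ha hb)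
        exact this
      one_mem' := by
        have : sep G N x x = ∅ := by
          rw [Set.eq_empty_iff_forall_notMem]
          rintro M ⟨_, h1, h2⟩
          linarith
        change Even (sep G N x x).ncard
        rw [this]; simp
      inv_mem' := by
        intro a ha
        change Even (sep G N x ((a : Iso)⁻¹ x)).ncard
        rw [even_inv hG (hle a.2)]
        exact ha }
  have hEmem : ∀ γ : Γ, γ ∈ E ↔ Even (sep G N x ((γ : Iso) x)).ncard := fun γ => Iff.rfl
  have hEn : E.Normal := by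
    constructor
    intro n hn γ
    rw [hEmem] at hn ⊢
    have h1 := even_mul hG hfin hx ox (G.mul_mem (hle γ.2) (hle n.2)) (G.inv_mem (hle γ.2))
    have h2 := even_mul hG hfin hx ox (hle γ.2) (hle n.2)
    rw [even_inv hG (hle γ.2)] at h1
    have h3 : ((γ * n * γ⁻¹ : Γ) : Iso) = (γ : Iso) * (n : Iso) * (γ : Iso)⁻¹ := rfl
    rw [h3]
    tauto
  have hμE : μ ∈ E := by
    rw [hEmem, hper μ hμG hμv]; simp
  have htop : E = ⊤ := by
    rw [eq_top_iff, ← hnc]
    exact Subgroup.normalClosure_le_normal (by simpa using hμE)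
  have hall : ∀ γ ∈ Γ, Even (sep G N x (γ x)).ncard := by
    intro γ hγ
    have : (⟨γ, hγ⟩ : Γ) ∈ E := by rw [htop]; trivial
    exact this
  -- the cusp
  obtain ⟨γ, hγ, c, hc, hγv⟩ := cusp_transitive hΓ hG hle hfi μ.2 hpar hv hμv hg
  have hpG : γ * g ∈ G := G.mul_mem (hle hγ) hg
  have hpv : (γ * g) v = v := fixes_vector hG hd hμG hv hdisp hpG ⟨c, hc, hγv⟩
  have h1 := even_mul hG hfin hx ox (hle hγ) hg
  rw [hper _ hpG hpv] at h1
  simp only [Set.ncard_empty, Even.zero, true_iff] at h1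
  exact h1.1 (hall γ hγ)

/-- the reflection in the plane -/
theorem no_reflection (hΓ : KnotLike Γ) (hG : ∀ g ∈ G, IsIsom g)
    (hd : IsDiscrete G) (hle : Γ ≤ G) (hfi : Γ.relIndex G ≠ 0) (hN : form N N = -1)
    (hcl : CoversClosedSurface Γ N) {r : Iso} (hr : r ∈ G) :
    ¬ ∀ X, r X = X + (2 * form N X) • N := by
  intro hrX
  obtain ⟨μ, hpar, hnc⟩ := hΓ.meridian
  obtain ⟨v, hv, hμv, hdisp⟩ := parabolic_data hpar
  have hμG : (μ : Iso) ∈ G := hle μ.2
  obtain ⟨x, hx, ox, hper⟩ := exists_deep hG hd hle hcl hμG hv hdisp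
  have heven := even_sep hΓ hG hd hle hfi hcl hx ox hr
  have hrx : r x ∈ H3 := isom_H3 (hG r hr) hx
  have hfin := sep_finite hG hd hle hcl hx hrx
  -- the reflection is an involution
  have hrr : ∀ X, r (r X) = X := by
    intro X
    rw [hrX (r X), hrX X, form_add_right, form_smul_right, hN]
    have : form N X + 2 * form N X * -1 = -(form N X) := by ring
    rw [this]
    have e : (2 * -form N X) • N = -((2 * form N X) • N) := by
      rw [mul_neg, neg_smul]
    rw [e]; abel
  have hrN : r N = -N := by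
    rw [hrX N, hN]
    have : (2 * (-1 : ℝ)) • N = -N + -N := by
      rw [mul_neg, mul_one, neg_smul, two_smul]; abel
    rw [this]; abel
  have hadj : ∀ X Y, form (r X) Y = form X (r Y) := by
    intro X Y
    rw [← form_isom (hG r hr) (r X) Y, hrr]
  -- the involution on the separating walls
  set S := hfin.toFinset with hS
  have hmemS : ∀ M, M ∈ S ↔ M ∈ walls G N ∧ form M x < 0 ∧ 0 < form M (r x) := by
    intro M; rw [hS, Set.Finite.mem_toFinset]; rfl
  have hinv : ∀ M ∈ S, -(r M) ∈ S := by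
    intro M hM
    rw [hmemS] at hM ⊢
    obtain ⟨h1, h2, h3⟩ := hM
    refine ⟨neg_mem_walls (apply_mem_walls h1 hr), ?_, ?_⟩
    · rw [form_neg_left, hadj]; linarith
    · rw [form_neg_left, hadj, hrr]; linarith
  have hnorm : ∀ M ∈ walls G N, form M M = -1 := by
    rintro M ⟨g, hg, h | h⟩
    · rw [h, form_isom (hG g hg), hN]
    · rw [h, form_neg_left, form_neg_right, neg_neg, form_isom (hG g hg), hN]
  have hfix : ∀ M ∈ S, -(r M) = M → M = N ∨ M = -N := by
    intro M hM h
    rw [hrX M] at h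
    have h1 : M = -(form N M) • N := by
      have h2 : (2 : ℝ) • M = -((2 * form N M) • N) := by
        rw [two_smul]
        calc M + M = -(M + (2 * form N M) • N) + M := by rw [h]
          _ = -((2 * form N M) • N) := by abel
      calc M = (1 / 2 : ℝ) • ((2 : ℝ) • M) := by rw [smul_smul]; norm_num
        _ = (1 / 2 : ℝ) • (-((2 * form N M) • N)) := by rw [h2]
        _ = -(form N M) • N := by
          rw [smul_neg, smul_smul, neg_smul]
          congr 2
          ring
    have h2 := hnorm M ((hmemS M).1 hM).1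
    set t := -(form N M) with ht
    rw [h1, form_smul_left, form_smul_right, hN] at h2
    have h3 : (t - 1) * (t + 1) = 0 := by linarith
    rcases mul_eq_zero.1 h3 with h4 | h4
    · left; rw [h1, sub_eq_zero.1 h4, one_smul]
    · right; rw [h1, show t = -1 by linarith, neg_smul, one_smul]
  -- the normal vector of the plane itself
  have hNw : N ∈ walls G N := ⟨1, G.one_mem, Or.inl rfl⟩
  have hNx := ox N hNw
  obtain ⟨N', hN'S, hN'⟩ : ∃ N' ∈ S, N' = N ∨ N' = -N := by
    rcases lt_or_gt_of_ne hNx with h | h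
    · refine ⟨N, (hmemS N).2 ⟨hNw, h, ?_⟩, Or.inl rfl⟩
      rw [← hadj, hrN, form_neg_left]; linarith
    · refine ⟨-N, (hmemS (-N)).2 ⟨neg_mem_walls hNw, ?_, ?_⟩, Or.inr rfl⟩
      · rw [form_neg_left]; linarith
      · rw [← hadj, map_neg, hrN, neg_neg]; exact h
  have honly : ∀ M ∈ S, (M = N ∨ M = -N) → M = N' := by
    intro M hM h
    have h1 := ((hmemS M).1 hM).2.1
    have h2 := ((hmemS N').1 hN'S).2.1
    rcases h with h | h <;> rcases hN' with h' | h' <;> rw [h, h']
    · rw [h] at h1; rw [h', form_neg_left] at h2; linarith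
    · rw [h, form_neg_left] at h1; rw [h'] at h2; linarith
  have hzero : ∑ M ∈ S.erase N', (1 : ZMod 2) = 0 := by
    apply Finset.sum_involution (fun M _ => -(r M))
    · intro M hM; decide
    · intro M hM _ h
      have hMS := Finset.mem_of_mem_erase hM
      exact Finset.ne_of_mem_erase hM (honly M hMS (hfix M hMS h))
    · intro M hM
      rw [Finset.mem_erase]
      have hMS := Finset.mem_of_mem_erase hM
      refine ⟨?_, hinv M hMS⟩
      intro h
      apply Finset.ne_of_mem_erase hM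
      have h1 : M = -(r N') := by
        rw [← h, map_neg, hrr, neg_neg]
      rcases hN' with h' | h'
      · rw [h1, h', hrN, neg_neg]
      · rw [h1, h', map_neg, hrN, neg_neg]
    · intro M hM
      simp only [map_neg, neg_neg, hrr]
  have hcard : (sep G N x (r x)).ncard = (S.erase N').card + 1 := by
    rw [Set.ncard_eq_toFinset_card _ hfin, ← hS, Finset.card_erase_add_one hN'S]
  rw [hcard] at heven
  have h2 : ((S.erase N').card : ZMod 2) = 0 := by
    rw [Finset.sum_const, nsmul_eq_mul, mul_one] at hzero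
    exact hzero
  have h3 : Even (S.erase N').card := (ZMod.natCast_eq_zero_iff_even).1 h2
  rw [Nat.even_add_one] at heven
  exact heven h3

end Pool.Agent.MP5b7155
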