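import Pool.Agent.MP5b7155.Parab

namespace Pool.Agent.MP5b7155

open Matrix ComplexConjugate

/-- the base point -/
noncomputable def base : Herm := (1, 1, 0)

lemma base_mem : base ∈ H3 := by
  refine ⟨?_, by simp [base]⟩
  simp [base, form]

lemma form_base (X : Herm) : form base X = (X.1 + X.2.1) / 2 := by
  simp only [base, form, Complex.zero_re, zero_mul, one_mul]
  ring

/-- balls are compact -/
lemma compact_ball (R : ℝ) : IsCompact {X : Herm | X ∈ H3 ∧ X.1 + X.2.1 ≤ R} := by
  have hset : {X : Herm | X ∈ H3 ∧ X.1 + X.2.1 ≤ R}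
      = {X : Herm | form X X = 1} ∩ ({X | 0 ≤ X.1} ∩ ({X | 0 ≤ X.2.1} ∩ {X | X.1 + X.2.1 ≤ R})) := by
    ext X
    constructor
    · rintro ⟨hX, hR⟩
      exact ⟨hX.1, hX.2.le, (H3_snd_pos hX).le, hR⟩
    · rintro ⟨h0, h1, h2, hR⟩
      refine ⟨⟨h0, ?_⟩, hR⟩
      rcases (show (0 : ℝ) ≤ X.1 from h1).eq_or_lt with h | h
      · exfalso
        have h0' : form X X = 1 := h0
        rw [form_self, ← h] at h0'
        nlinarith [sq_nonneg X.2.2.re, sq_nonneg X.2.2.im]
      · exact h
  apply Metric.isCompact_of_isClosed_isBounded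
  · rw [hset]
    refine IsClosed.inter ?_ (IsClosed.inter ?_ (IsClosed.inter ?_ ?_))
    · exact isClosed_eq (continuous_form.comp (continuous_id.prodMk continuous_id))
        continuous_const
    · exact isClosed_le continuous_const (by fun_prop)
    · exact isClosed_le continuous_const (by fun_prop)
    · exact isClosed_le (by fun_prop) continuous_const
  · rw [isBounded_iff_forall_norm_le]
    refine ⟨R, ?_⟩
    rintro X ⟨hX, hR⟩
    have h2 := H3_snd_pos hX
    have h1 := hX.2
    have h0 := hX.1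
    rw [form_self] at h0
    rw [Prod.norm_def, Prod.norm_def]
    refine max_le ?_ (max_le ?_ ?_)
    · rw [Real.norm_eq_abs, abs_of_pos h1]; linarith
    · rw [Real.norm_eq_abs, abs_of_pos h2]; linarith
    · have hz : ‖X.2.2‖ ^ 2 = X.2.2.re ^ 2 + X.2.2.im ^ 2 := by
        rw [← Complex.normSq_eq_norm_sq, Complex.normSq_apply]; ring
      have hR0 : 0 ≤ R := by linarith
      apply le_of_sq_le_sq₀ _ hR0
      rw [hz]
      nlinarith [mul_pos h1 h2, sq_nonneg (X.1 - X.2.1)]
where
  le_of_sq_le_sq₀ {a b : ℝ} (h : a ^ 2 ≤ b ^ 2) (hb : 0 ≤ b) : a ≤ b := by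
    exact le_of_sq_le_sq' h hb
  le_of_sq_le_sq' {a b : ℝ} (h : a ^ 2 ≤ b ^ 2) (hb : 0 ≤ b) : a ≤ b := by
    by_contra hn
    push Not at hn
    nlinarith

lemma null_sum_pos {v : Herm} (hv : IsNull v) : 0 < v.1 + v.2.1 := by
  rcases hv.2.2.1.eq_or_lt with h3 | h3
  · rcases hv.2.2.2.eq_or_lt with h4 | h4
    · exfalso
      apply hv.2.1
      have h5 := hv.1
      rw [form_self, ← h3, ← h4] at h5
      have hre : v.2.2.re = 0 := by nlinarith [sq_nonneg v.2.2.re, sq_nonneg v.2.2.im]
      have him : v.2.2.im = 0 := by nlinarith [sq_nonneg v.2.2.re, sq_nonneg v.2.2.im]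
      exact Prod.ext h3.symm (Prod.ext h4.symm (Complex.ext hre him))
    · linarith
  · linarith [hv.2.2.2]

lemma form_null_pos {X v : Herm} (hX : X ∈ H3) (hv : IsNull v) : 0 < form X v := by
  have h1 := form_null_bound hX hv
  have h2 := null_sum_pos hv
  have h3 := hX.2
  have h4 := H3_snd_pos hX
  by_contra hn
  push Not at hn
  have : 2 * (X.1 + X.2.1) * form X v ≤ 0 :=
    mul_nonpos_of_nonneg_of_nonpos (by positivity) hn
  linarith

lemma form_unit_left (w M : Herm) : form (unit w) M = (1 / Real.sqrt (form w w)) * form w M := by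
  rw [unit, form_smul_left]

variable {Γ G : Subgroup Iso} {N : Herm}

/-- gap in the displacements of the base point -/
lemma displacement_gap (hd : IsDiscrete G) :
    ∃ ε : ℝ, 0 < ε ∧ ∀ g ∈ G, g base ∈ H3 → 1 < form base (g base) →
      1 + ε ≤ form base (g base) := by
  have hF := hd _ (fun X hX => hX.1) (compact_ball 4)
  set F := {g : Iso | g ∈ G ∧ ∃ x ∈ {X : Herm | X ∈ H3 ∧ X.1 + X.2.1 ≤ 4},
    g x ∈ {X : Herm | X ∈ H3 ∧ X.1 + X.2.1 ≤ 4}} with hFdef
  have hS : ((fun g : Iso => form base (g base)) '' {g | g ∈ F ∧ 1 < form base (g base)}).Finite :=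
    (hF.subset (fun g hg => hg.1)).image _
  have hmem : ∀ g ∈ G, g base ∈ H3 → form base (g base) ≤ 2 → g ∈ F := by
    intro g hg hgb hle
    refine ⟨hg, base, ⟨base_mem, by simp [base]; norm_num⟩, hgb, ?_⟩
    rw [form_base] at hle; linarith
  rcases Set.eq_empty_or_nonempty
    ((fun g : Iso => form base (g base)) '' {g | g ∈ F ∧ 1 < form base (g base)}) with hE | hE
  · refine ⟨1, one_pos, fun g hg hgb h1 => ?_⟩
    by_contra hn
    push Not at hn
    have : form base (g base) ∈
        ((fun g : Iso => form base (g base)) '' {g | g ∈ F ∧ 1 < form base (g base)}) :=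
      ⟨g, ⟨hmem g hg hgb (by linarith), h1⟩, rfl⟩
    rw [hE] at this
    exact this
  · obtain ⟨m, hm, hmin⟩ := Set.exists_min_image _ id hS hE
    obtain ⟨g0, ⟨hg0F, hg01⟩, hg0m⟩ := hm
    have hm1 : 1 < m := by rw [← hg0m]; exact hg01
    refine ⟨min (m - 1) 1, lt_min (by linarith) one_pos, fun g hg hgb h1 => ?_⟩
    by_cases h2 : form base (g base) ≤ 2
    · have := hmin (form base (g base)) ⟨g, ⟨hmem g hg hgb h2, h1⟩, rfl⟩
      simp only [id] at this
      have := min_le_left (m - 1) 1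
      linarith
    · push Not at h2
      have := min_le_right (m - 1) 1
      linarith

/-- the orbit of the null vector of a parabolic element stays away from zero -/
lemma orbit_bound (hG : ∀ g ∈ G, IsIsom g) (hd : IsDiscrete G) {μ : Iso} (hμG : μ ∈ G) {v : Herm}
    (hv : IsNull v) (hdisp : ∀ X, form X (μ X) = form X X + 2 * (form X v) ^ 2) :
    ∃ c₀ : ℝ, 0 < c₀ ∧ ∀ h ∈ G, c₀ ≤ form base (h v) := by
  obtain ⟨ε, hε, hgap⟩ := displacement_gap hd
  refine ⟨Real.sqrt (ε / 2), Real.sqrt_pos.2 (by positivity), fun h hh => ?_⟩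
  have hnull := isom_null (hG h hh) hv
  have hpos : 0 < form base (h v) := form_null_pos base_mem hnull
  -- the conjugate of the parabolic element
  set y := h⁻¹ base with hy
  have hhy : h y = base := by
    change (h * h⁻¹) base = base
    rw [mul_inv_cancel]; rfl
  have hyH : y ∈ H3 := isom_H3 (hG _ (G.inv_mem hh)) base_mem
  set g := h * μ * h⁻¹ with hg
  have hgG : g ∈ G := G.mul_mem (G.mul_mem hh hμG) (G.inv_mem hh)
  have hgb : g base = h (μ y) := rfl
  have hform : form base (g base) = 1 + 2 * (form base (h v)) ^ 2 := by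
    have e1 : form base (g base) = form y (μ y) := by
      rw [hgb]
      conv_lhs => rw [← hhy]
      exact form_isom (hG h hh) _ _
    have e2 : form y v = form base (h v) := by
      rw [← form_isom (hG h hh) y v, hhy]
    rw [e1, hdisp, hyH.1, e2]
  have hgH : g base ∈ H3 := isom_H3 (hG _ hgG) base_mem
  have h1 := hgap g hgG hgH (by rw [hform]; nlinarith [sq_pos_of_pos hpos])
  rw [hform] at h1
  apply Real.sqrt_le_iff.2
  exact ⟨hpos.le, by linarith⟩

/-- a horoball which no wall meets -/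
lemma horoball (hG : ∀ g ∈ G, IsIsom g) (hd : IsDiscrete G) (hle : Γ ≤ G)
    (hcl : CoversClosedSurface Γ N) {μ : Iso} (hμG : μ ∈ G) {v : Herm} (hv : IsNull v)
    (hdisp : ∀ X, form X (μ X) = form X X + 2 * (form X v) ^ 2) :
    ∃ c₁ : ℝ, 0 < c₁ ∧ ∀ M ∈ walls G N, ∀ z ∈ H3, form M z = 0 → c₁ ≤ form z v := by
  obtain ⟨c₀, hc₀, hb⟩ := orbit_bound hG hd hμG hv hdisp
  obtain ⟨D, hDp, hDc, hD⟩ := hcl
  obtain ⟨R, hR⟩ : ∃ R : ℝ, ∀ d ∈ D, d.1 + d.2.1 ≤ R := by
    have := hDc.bddAbove_image (f := fun d : Herm => d.1 + d.2.1) (by fun_prop)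
    obtain ⟨R, hR⟩ := this
    exact ⟨R, fun d hd' => hR ⟨d, hd', rfl⟩⟩
  refine ⟨c₀ / max R 1, by positivity, fun M hM z hz h0 => ?_⟩
  obtain ⟨h, hh, d, hdD, hhd, -⟩ := wall_rep hG hle hD hM hz h0
  have hdH : d ∈ H3 := (hDp hdD).1
  have hhi := G.inv_mem hh
  have hcan : h (h⁻¹ v) = v := by
    change (h * h⁻¹) v = v
    rw [mul_inv_cancel]; rfl
  have e : form z v = form d (h⁻¹ v) := by
    rw [← hhd]
    conv_lhs => rw [← hcan]
    exact form_isom (hG h hh) _ _
  rw [e]
  have h1 := form_null_bound hdH (isom_null (hG _ hhi) hv)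
  have h2 := hb _ hhi
  rw [form_base] at h2
  have h3 := hR d hdD
  have hd1 := hdH.2
  have hd2 := H3_snd_pos hdH
  have h4 : d.1 + d.2.1 ≤ max R 1 := h3.trans (le_max_left _ _)
  rw [div_le_iff₀ (by positivity)]
  have h5 : 0 < form d (h⁻¹ v) := form_null_pos hdH (isom_null (hG _ hhi) hv)
  nlinarith [mul_le_mul_of_nonneg_left h4 h5.le]

/-- an element of a discrete group which fixes the cusp fixes the null vector -/
lemma fixes_vector (hG : ∀ g ∈ G, IsIsom g) (hd : IsDiscrete G) {μ : Iso} (hμG : μ ∈ G) {v : Herm}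
    (hv : IsNull v) (hdisp : ∀ X, form X (μ X) = form X X + 2 * (form X v) ^ 2) {p : Iso}
    (hp : p ∈ G) (hpv : FixesPoint p v) : p v = v := by
  obtain ⟨c₀, hc₀, hb⟩ := orbit_bound hG hd hμG hv hdisp
  have key : ∀ q ∈ G, ∀ c : ℝ, 0 < c → q v = c • v → 1 ≤ c := by
    intro q hq c hc hqv
    by_contra hn
    push Not at hn
    have hpow : ∀ n : ℕ, (q ^ n) v = c ^ n • v := by
      intro n
      induction n with
      | zero => simp
      | succ n ih =>
        rw [pow_succ]
        change (q ^ n) (q v) = _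
        rw [hqv, map_smul, ih, smul_smul, pow_succ, mul_comm]
    have hlim : Filter.Tendsto (fun n : ℕ => c ^ n * form base v) Filter.atTop (nhds (0 * form base v)) :=
      (tendsto_pow_atTop_nhds_zero_of_lt_one hc.le hn).mul_const _
    rw [zero_mul] at hlim
    have : c₀ ≤ 0 := by
      apply ge_of_tendsto' hlim
      intro n
      have := hb (q ^ n) (G.pow_mem hq n)
      rw [hpow, form_smul_right] at this
      exact this
    linarith
  obtain ⟨c, hc, hpc⟩ := hpv
  have h1 := key p hp c hc hpc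
  have hinv : p⁻¹ v = c⁻¹ • v := by
    have : p (c⁻¹ • v) = v := by
      rw [map_smul, hpc, smul_smul, inv_mul_cancel₀ hc.ne', one_smul]
    calc p⁻¹ v = p⁻¹ (p (c⁻¹ • v)) := by rw [this]
      _ = (p⁻¹ * p) (c⁻¹ • v) := rfl
      _ = c⁻¹ • v := by rw [inv_mul_cancel]; rfl
  have h2 := key p⁻¹ (G.inv_mem hp) c⁻¹ (by positivity) hinv
  have h3 : c ≤ 1 := by
    have := mul_le_mul_of_nonneg_left h2 hc.le
    rwa [mul_one, mul_inv_cancel₀ hc.ne'] at this
  have : c = 1 := le_antisymm h3 h1
  rw [hpc, this, one_smul]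

/-- there are points arbitrarily deep in the horoball -/
lemma deep_point {v : Herm} (hv : IsNull v) {c : ℝ} (hc : 0 < c) :
    ∃ x ∈ H3, form x v < c := by
  set k := form base v with hk
  have hk0 : 0 ≤ k := by
    rw [hk, form_base]; linarith [hv.2.2.1, hv.2.2.2]
  obtain ⟨s, hs0, hs⟩ : ∃ s : ℝ, 0 ≤ s ∧ k < c * Real.sqrt (1 + 2 * s * k) := by
    rcases hk0.eq_or_lt with h | h
    · refine ⟨0, le_refl _, ?_⟩
      rw [← h]; simp [hc]
    · refine ⟨k / c ^ 2, by positivity, ?_⟩
      have h1 : (k / c) < Real.sqrt (1 + 2 * (k / c ^ 2) * k) := by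
        apply Real.lt_sqrt_of_sq_lt
        have e : 2 * (k / c ^ 2) * k = 2 * (k / c) ^ 2 := by field_simp
        rw [e]
        nlinarith [sq_nonneg (k / c)]
      have := mul_lt_mul_of_pos_left h1 hc
      rwa [mul_div_cancel₀ _ hc.ne'] at this
  have hw : form (base + s • v) (base + s • v) = 1 + 2 * s * k := by
    simp only [form_add_left, form_add_right, form_smul_left, form_smul_right]
    rw [form_comm v base, ← hk, hv.1, base_mem.1]; ring
  have hw0 : 0 < form (base + s • v) (base + s • v) := by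
    rw [hw]; positivity
  have hw1 : 0 < (base + s • v).1 := by
    have e : (base + s • v).1 = 1 + s * v.1 := by simp [base]
    rw [e]
    have := mul_nonneg hs0 hv.2.2.1
    linarith
  refine ⟨unit (base + s • v), unit_mem hw0 hw1, ?_⟩
  have e2 : form (base + s • v) v = k := by
    rw [form_add_left, form_smul_left, hv.1, mul_zero, add_zero]
  rw [form_unit_left, e2, hw]
  have hsq : 0 < Real.sqrt (1 + 2 * s * k) := Real.sqrt_pos.2 (by positivity)
  rw [one_div, inv_mul_lt_iff₀ hsq, mul_comm]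
  exact hs

/-- an element fixing the cusp crosses no wall -/
lemma sep_peripheral (hG : ∀ g ∈ G, IsIsom g) {v : Herm} (hv : IsNull v) {c₁ : ℝ}
    (hc₁ : ∀ M ∈ walls G N, ∀ z ∈ H3, form M z = 0 → c₁ ≤ form z v) {x : Herm} (hx : x ∈ H3)
    (hxv : form x v < c₁) {p : Iso} (hp : p ∈ G) (hpv : p v = v) : sep G N x (p x) = ∅ := by
  rw [Set.eq_empty_iff_forall_notMem]
  rintro M ⟨hM, h1, h2⟩
  have hpx : p x ∈ H3 := isom_H3 (hG p hp) hx
  have hpxv : form (p x) v = form x v := by
    conv_lhs => rw [← hpv]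
    exact form_isom (hG p hp) _ _
  set α := form M (p x) with hα
  set β := -form M x with hβ
  have hα0 : 0 < α := h2
  have hβ0 : 0 < β := by rw [hβ]; linarith
  have hz := comb_unit_mem hx hpx hα0.le hβ0.le (by linarith)
  have hzero : form M (unit (α • x + β • p x)) = 0 := by
    have : form M (α • x + β • p x) = 0 := by
      rw [form_add_right, form_smul_right, form_smul_right, ← hα, hβ]; ring
    rw [form_unit, this, mul_zero]
  have h3 := hc₁ M hM _ hz hzero
  have hge := form_comb_ge hx hpx hα0.le hβ0.le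
  have hsum : 0 < α + β := by linarith
  have hs : α + β ≤ Real.sqrt (form (α • x + β • p x) (α • x + β • p x)) :=
    Real.le_sqrt_of_sq_le hge
  have hspos : 0 < Real.sqrt (form (α • x + β • p x) (α • x + β • p x)) := by linarith
  have hlin : form (α • x + β • p x) v = (α + β) * form x v := by
    rw [form_add_left, form_smul_left, form_smul_left, hpxv]; ring
  rw [form_unit_left, hlin, one_div, ← div_eq_inv_mul, le_div_iff₀ hspos] at h3
  have hxv0 : 0 < form x v := form_null_pos hx hv
  have h4 : (α + β) * form x v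
      ≤ Real.sqrt (form (α • x + β • p x) (α • x + β • p x)) * form x v :=
    mul_le_mul_of_nonneg_right hs hxv0.le
  have h5 : Real.sqrt (form (α • x + β • p x) (α • x + β • p x)) * form x v
      < c₁ * Real.sqrt (form (α • x + β • p x) (α • x + β • p x)) := by
    rw [mul_comm c₁]; exact mul_lt_mul_of_pos_left hxv hspos
  linarith

end Pool.Agent.MP5b7155
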