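import Mathlib

/-!
# Hyperbolic 3-space as the space of positive definite Hermitian matrices of determinant one

Definitions for `MP_5b7155_gt`: the Hermitian model of hyperbolic 3-space with its group of
isometries, discrete groups, parabolic elements, groups like hyperbolic knot groups, planes covering
closed totally geodesic surfaces and the set of planes which separate two points.
-/

namespace Pool.Agent.MP5b7155

open Matrix ComplexConjugate

/-- The real vector space of Hermitian `2 × 2` matrices `[[a, z], [conj z, b]]`, given by the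
triples `(a, b, z)`. -/
abbrev Herm : Type := ℝ × ℝ × ℂ

/-- The Hermitian matrix `[[a, z], [conj z, b]]` of the triple `(a, b, z)`. -/
noncomputable def mat (X : Herm) : Matrix (Fin 2) (Fin 2) ℂ :=
  !![(X.1 : ℂ), X.2.2; conj X.2.2, (X.2.1 : ℂ)]

/-- The polarised determinant: `form X X = a b - |z|^2 = det (mat X)`. -/
noncomputable def form (X Y : Herm) : ℝ :=
  (X.1 * Y.2.1 + X.2.1 * Y.1) / 2 - (X.2.2 * conj Y.2.2).re

/-- Hyperbolic 3-space: positive definite Hermitian matrices of determinant one
(`cosh` of the distance of `X` and `Y` is `form X Y`). -/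
def H3 : Set Herm := {X | form X X = 1 ∧ 0 < X.1}

/-- Linear automorphisms of the space of Hermitian matrices. -/
abbrev Iso : Type := Herm ≃ₗ[ℝ] Herm

/-- `g` is the isometry `X ↦ b X b^*` given by the matrix `b` in `SL(2, ℂ)`. -/
def ActsBy (g : Iso) (b : Matrix (Fin 2) (Fin 2) ℂ) : Prop :=
  b.det = 1 ∧ ∀ X, mat (g X) = b * mat X * bᴴ

/-- Orientation preserving isometries of hyperbolic 3-space: the elements of `PSL(2, ℂ)`. -/
def IsDirect (g : Iso) : Prop := ∃ b, ActsBy g b

/-- Orientation reversing isometries of hyperbolic 3-space: `X ↦ b X^T b^*` with `b` in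
`SL(2, ℂ)` (the transpose of a Hermitian matrix is its complex conjugate). -/
def IsOpposite (g : Iso) : Prop :=
  ∃ b : Matrix (Fin 2) (Fin 2) ℂ, b.det = 1 ∧ ∀ X, mat (g X) = b * (mat X)ᵀ * bᴴ

/-- Isometries of hyperbolic 3-space, orientation preserving or not. -/
def IsIsom (g : Iso) : Prop := IsDirect g ∨ IsOpposite g

/-- `G` is discrete: it acts properly discontinuously on hyperbolic 3-space. -/
def IsDiscrete (G : Subgroup Iso) : Prop :=
  ∀ K ⊆ H3, IsCompact K → {g : Iso | g ∈ G ∧ ∃ x ∈ K, g x ∈ K}.Finite

/-- Parabolic elements of `PSL(2, ℂ)`: the trace is `± 2` and the element is not the identity. -/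
def IsParabolic (g : Iso) : Prop :=
  ∃ b, ActsBy g b ∧ b.trace ^ 2 = 4 ∧ b ≠ 1 ∧ b ≠ -1

/-- Non-zero positive semidefinite matrices of determinant zero; up to positive multiples they are
the points of the sphere at infinity. -/
def IsNull (v : Herm) : Prop := form v v = 0 ∧ v ≠ 0 ∧ 0 ≤ v.1 ∧ 0 ≤ v.2.1

/-- `g` fixes the point at infinity given by the null vector `v`. -/
def FixesPoint (g : Iso) (v : Herm) : Prop := ∃ c : ℝ, 0 < c ∧ g v = c • v

/-- Properties shared by all hyperbolic knot groups in `PSL(2, ℂ)`: `Γ` is discrete and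
torsion-free, it is normally generated by one parabolic element (a meridian), and it has a single
class of parabolic fixed points (one cusp). -/
structure KnotLike (Γ : Subgroup Iso) : Prop where
  direct : ∀ g ∈ Γ, IsDirect g
  discrete : IsDiscrete Γ
  torsionFree : ∀ g ∈ Γ, ∀ n : ℕ, n ≠ 0 → g ^ n = 1 → g = 1
  meridian : ∃ μ : Γ, IsParabolic (μ : Iso) ∧ Subgroup.normalClosure {μ} = ⊤
  oneCusp : ∀ g ∈ Γ, ∀ h ∈ Γ, IsParabolic g → IsParabolic h →
    ∀ v w, IsNull v → IsNull w → FixesPoint g v → FixesPoint h w →
      ∃ γ ∈ Γ, ∃ c : ℝ, 0 < c ∧ γ v = c • w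

/-- The hyperbolic plane with normal vector `N` (`form N N = -1`). -/
def plane (N : Herm) : Set Herm := {X | X ∈ H3 ∧ form N X = 0}

/-- The plane with normal vector `N` covers a closed immersed totally geodesic surface of the
quotient by `Γ`: its stabiliser in `Γ` acts on it with compact quotient. -/
def CoversClosedSurface (Γ : Subgroup Iso) (N : Herm) : Prop :=
  ∃ D ⊆ plane N, IsCompact D ∧
    ∀ X ∈ plane N, ∃ s ∈ Γ, (s N = N ∨ s N = -N) ∧ ∃ d ∈ D, s d = X

/-- The unit normal vectors `± g N` of the translates of the plane by elements of `G`; every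
translate has exactly two of them. -/
def walls (G : Subgroup Iso) (N : Herm) : Set Herm := {M | ∃ g ∈ G, M = g N ∨ M = -(g N)}

/-- The translates of the plane which separate `x` from `y`: each is represented by its unique unit
normal vector with negative value at `x` and positive value at `y`. -/
def sep (G : Subgroup Iso) (N x y : Herm) : Set Herm :=
  {M | M ∈ walls G N ∧ form M x < 0 ∧ 0 < form M y}

end Pool.Agent.MP5b7155
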