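import Pool.Agent.MP5b7155.Colour

namespace Pool.Agent.MP5b7155

open Matrix ComplexConjugate

variable {Γ G : Subgroup Iso} {N : Herm}

/-- a vector of positive norm on the same side as a point of hyperbolic space -/
lemma cone_pos {w x : Herm} (hx : x ∈ H3) (hw : 0 < form w w) (hwx : 0 < form w x) : 0 < w.1 := by
  rcases lt_trichotomy w.1 0 with h | h | h
  · exfalso
    have h1 : 0 < form (-w) (-w) := by rw [form_neg_left, form_neg_right, neg_neg]; exact hw
    have h2 : 0 < (-w).1 := by simpa using h
    have h3 := one_le_form (unit_mem h1 h2) hx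
    rw [form_unit_left, form_neg_left w x] at h3
    have h4 : 0 < 1 / Real.sqrt (form (-w) (-w)) := one_div_pos.2 (Real.sqrt_pos.2 h1)
    nlinarith [mul_pos h4 hwx]
  · exfalso
    rw [form_self, h] at hw
    nlinarith [sq_nonneg w.2.2.re, sq_nonneg w.2.2.im]
  · exact h

/-- the plane is not empty -/
lemma plane_nonempty (hN : form N N = -1) : ∃ p, p ∈ plane N := by
  set t := form N base with ht
  have hb : form base base = 1 := base_mem.1
  have h1 : form (base + t • N) (base + t • N) = 1 + t ^ 2 := by
    simp only [form_add_left, form_add_right, form_smul_left, form_smul_right]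
    rw [form_comm base N, ← ht, hb, hN]; ring
  have h2 : form (base + t • N) base = 1 + t ^ 2 := by
    rw [form_add_left, form_smul_left, hb, ← ht]; ring
  have h3 : 0 < form (base + t • N) (base + t • N) := by rw [h1]; positivity
  have h4 := cone_pos base_mem h3 (by rw [h2]; positivity)
  refine ⟨unit (base + t • N), unit_mem h3 h4, ?_⟩
  have h5 : form N (base + t • N) = 0 := by
    rw [form_add_right, form_smul_right, hN, ← ht]; ring
  rw [form_unit, h5, mul_zero]

/-- a point of the plane lies on no other translate -/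
def Generic (G : Subgroup Iso) (N p : Herm) : Prop :=
  ∀ M ∈ walls G N, form M p = 0 → M = N ∨ M = -N

/-- a point close to a generic point of the plane -/
lemma near_point (hG : ∀ g ∈ G, IsIsom g) (hd : IsDiscrete G) (hle : Γ ≤ G)
    (hN : form N N = -1) (hcl : CoversClosedSurface Γ N) {p : Herm} (hp : p ∈ H3)
    (hpN : form N p = 0) (hgen : Generic G N p) :
    ∃ x ∈ H3, Off G N x ∧ form N x < 0 ∧
      ∀ M ∈ walls G N, M ≠ N → M ≠ -N → (form M x < 0 ↔ form M p < 0) := by
  have hNw : N ∈ walls G N := ⟨1, G.one_mem, Or.inl rfl⟩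
  have hform : ∀ ε : ℝ, form (p + ε • N) (p + ε • N) = 1 - ε ^ 2 := by
    intro ε
    simp only [form_add_left, form_add_right, form_smul_left, form_smul_right]
    rw [form_comm p N, hpN, hp.1, hN]; ring
  have hformp : ∀ ε : ℝ, form (p + ε • N) p = 1 := by
    intro ε
    rw [form_add_left, form_smul_left, hpN, hp.1]; ring
  have hmem : ∀ ε : ℝ, 0 < ε → ε < 1 → unit (p + ε • N) ∈ H3 := by
    intro ε h0 h1
    have h2 : 0 < form (p + ε • N) (p + ε • N) := by rw [hform]; nlinarith
    exact unit_mem h2 (cone_pos hp h2 (by rw [hformp]; exact one_pos))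
  have hsign : ∀ ε : ℝ, 0 < ε → ε < 1 → 0 < 1 / Real.sqrt (form (p + ε • N) (p + ε • N)) := by
    intro ε h0 h1
    have h2 : 0 < form (p + ε • N) (p + ε • N) := by rw [hform]; nlinarith
    exact one_div_pos.2 (Real.sqrt_pos.2 h2)
  -- the finitely many walls between `p` and the point at `1 / 2`
  let S1 : Set Herm := {M | M ∈ walls G N ∧ form M p < 0 ∧ 0 < form M (p + (1 / 2 : ℝ) • N)}
  have hS1 : S1.Finite := by
    apply (sep_finite hG hd hle hcl hp (hmem (1 / 2) (by norm_num) (by norm_num))).subset
    rintro M ⟨h1, h2, h3⟩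
    refine ⟨h1, h2, ?_⟩
    rw [form_unit]
    exact mul_pos (hsign _ (by norm_num) (by norm_num)) h3
  obtain ⟨ε, hε0, hε1, hεS⟩ : ∃ ε : ℝ, 0 < ε ∧ ε < 1 / 2 ∧
      ∀ M ∈ S1, form M p + ε * form M N < 0 := by
    have hev : ∀ᶠ ε in nhdsWithin (0 : ℝ) (Set.Ioi 0), ∀ M ∈ S1, form M p + ε * form M N < 0 := by
      rw [Filter.eventually_all_finite hS1]
      rintro M ⟨-, h2, -⟩
      apply mem_nhdsWithin_of_mem_nhds
      have hc : Continuous fun ε : ℝ => form M p + ε * form M N := by fun_prop
      have : Set.Iio (0 : ℝ) ∈ nhds ((fun ε : ℝ => form M p + ε * form M N) 0) := by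
        apply Iio_mem_nhds; simpa using h2
      exact hc.continuousAt this
    have hev2 : ∀ᶠ ε in nhdsWithin (0 : ℝ) (Set.Ioi 0), ε < 1 / 2 := by
      apply mem_nhdsWithin_of_mem_nhds
      exact Iio_mem_nhds (by norm_num)
    have hev3 : ∀ᶠ ε in nhdsWithin (0 : ℝ) (Set.Ioi 0), 0 < ε := self_mem_nhdsWithin
    obtain ⟨ε, h1, h2, h3⟩ := (hev.and (hev2.and hev3)).exists
    exact ⟨ε, h3, h2, h1⟩
  have hε1' : ε < 1 := by linarith
  have hneg : ∀ M ∈ walls G N, form M p < 0 → form M (p + ε • N) < 0 := by
    intro M hM h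
    rw [form_add_right, form_smul_right]
    by_cases h2 : 0 < form M (p + (1 / 2 : ℝ) • N)
    · exact hεS M ⟨hM, h, h2⟩
    · rw [form_add_right, form_smul_right] at h2
      push Not at h2
      nlinarith
  have hpos : ∀ M ∈ walls G N, 0 < form M p → 0 < form M (p + ε • N) := by
    intro M hM h
    have := hneg (-M) (neg_mem_walls hM) (by rw [form_neg_left]; linarith)
    rw [form_neg_left] at this; linarith
  set x := unit (p + ε • N) with hxdef
  have hs := hsign ε hε0 hε1'
  have hxM : ∀ M, form M x = (1 / Real.sqrt (form (p + ε • N) (p + ε • N)))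
      * form M (p + ε • N) := fun M => form_unit M _
  have hNx : form N (p + ε • N) = -ε := by
    rw [form_add_right, form_smul_right, hpN, hN]; ring
  have hxneg : form N x < 0 := by
    rw [hxM, hNx]
    have := mul_pos hs hε0
    linarith
  have hsgn : ∀ M ∈ walls G N, M ≠ N → M ≠ -N → form M p ≠ 0 := by
    intro M hM h1 h2 h0
    rcases hgen M hM h0 with h | h
    · exact h1 h
    · exact h2 h
  refine ⟨x, hmem ε hε0 hε1', ?_, hxneg, ?_⟩
  · intro M hM h0
    by_cases h1 : M = N
    · rw [h1] at h0; linarith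
    by_cases h2 : M = -N
    · rw [h2, form_neg_left] at h0; linarith
    rw [hxM] at h0
    have h3 : form M (p + ε • N) = 0 := by
      rcases mul_eq_zero.1 h0 with h | h
      · exact absurd h hs.ne'
      · exact h
    rcases lt_or_gt_of_ne (hsgn M hM h1 h2) with h | h
    · have := hneg M hM h; linarith
    · have := hpos M hM h; linarith
  · intro M hM h1 h2
    constructor
    · intro h
      rcases lt_or_gt_of_ne (hsgn M hM h1 h2) with h' | h'
      · exact h'
      · have := mul_pos hs (hpos M hM h')
        rw [← hxM] at this; linarith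
    · intro h
      have := mul_pos hs (neg_pos.2 (hneg M hM h))
      rw [mul_neg, ← hxM] at this; linarith

/-- an element of the stabiliser of the plane exchanges its sides iff it crosses an odd number of
other translates inside the plane -/
theorem side_parity (hΓ : KnotLike Γ) (hG : ∀ g ∈ G, IsIsom g)
    (hd : IsDiscrete G) (hle : Γ ≤ G) (hfi : Γ.relIndex G ≠ 0) (hN : form N N = -1)
    (hcl : CoversClosedSurface Γ N) {p : Herm} (hp : p ∈ plane N) (hgen : Generic G N p)
    {g : Iso} (hg : g ∈ G) (hgN : g N = N ∨ g N = -N) :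
    g N = -N ↔ Odd (sep G N p (g p)).ncard := by
  obtain ⟨hpH, hpN⟩ := hp
  have hNw : N ∈ walls G N := ⟨1, G.one_mem, Or.inl rfl⟩
  obtain ⟨x, hx, ox, hxN, hxp⟩ := near_point hG hd hle hN hcl hpH hpN hgen
  have hNN : N ≠ -N := by
    intro h
    have h1 : form N x = form (-N) x := by rw [← h]
    rw [form_neg_left] at h1; linarith
  have hmove : ∀ M z, form M (g z) = form (g⁻¹ M) z := by
    intro M z
    have hc : g (g⁻¹ M) = M := by
      change (g * g⁻¹) M = M
      rw [mul_inv_cancel]; rfl
    rw [← form_isom (hG g hg) (g⁻¹ M) z, hc]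
  have hc : ∀ M, g (g⁻¹ M) = M := by
    intro M
    change (g * g⁻¹) M = M
    rw [mul_inv_cancel]; rfl
  have hgx : g x ∈ H3 := isom_H3 (hG g hg) hx
  have hgp : g p ∈ H3 := isom_H3 (hG g hg) hpH
  -- the walls different from the plane
  have hother : ∀ M ∈ walls G N, M ≠ N → M ≠ -N → g⁻¹ M ≠ N ∧ g⁻¹ M ≠ -N := by
    intro M hM h1 h2
    constructor
    · intro h
      have h3 : M = g N := by rw [← h, hc]
      rcases hgN with h4 | h4
      · exact h1 (h3.trans h4)
      · exact h2 (h3.trans h4)
    · intro h
      have h3 : M = -(g N) := by rw [← map_neg, ← h, hc]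
      rcases hgN with h4 | h4
      · exact h2 (by rw [h3, h4])
      · exact h1 (by rw [h3, h4, neg_neg])
  have hsame : ∀ M ∈ walls G N, M ≠ N → M ≠ -N →
      (M ∈ sep G N x (g x) ↔ M ∈ sep G N p (g p)) := by
    intro M hM h1 h2
    obtain ⟨h3, h4⟩ := hother M hM h1 h2
    have hM' := apply_mem_walls hM (G.inv_mem hg)
    have e1 := hxp M hM h1 h2
    have e2 := hxp (-(g⁻¹ M)) (neg_mem_walls hM') (fun h => h4 (by rw [← h, neg_neg]))
      (fun h => h3 (neg_injective h))
    rw [form_neg_left, form_neg_left, neg_lt_zero, neg_lt_zero, ← hmove, ← hmove] at e2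
    constructor
    · rintro ⟨_, h5, h6⟩
      exact ⟨hM, e1.1 h5, e2.1 h6⟩
    · rintro ⟨_, h5, h6⟩
      exact ⟨hM, e1.2 h5, e2.2 h6⟩
  have hNp : N ∉ sep G N p (g p) := by rintro ⟨_, h, _⟩; linarith
  have hNp' : -N ∉ sep G N p (g p) := by
    rintro ⟨_, h, _⟩; rw [form_neg_left] at h; linarith
  have hNx' : -N ∉ sep G N x (g x) := by
    rintro ⟨_, h, _⟩; rw [form_neg_left] at h; linarith
  have heven := even_sep hΓ hG hd hle hfi hcl hx ox hg
  have hfinp := sep_finite hG hd hle hcl hpH hgp
  rcases hgN with h | h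
  · -- the sides are preserved
    have hinv : g⁻¹ N = N := by
      calc g⁻¹ N = g⁻¹ (g N) := by rw [h]
        _ = (g⁻¹ * g) N := rfl
        _ = N := by rw [inv_mul_cancel]; rfl
    have hNx : N ∉ sep G N x (g x) := by
      rintro ⟨_, _, h'⟩
      rw [hmove, hinv] at h'; linarith
    have heq : sep G N x (g x) = sep G N p (g p) := by
      ext M
      by_cases h1 : M = N
      · rw [h1]; exact iff_of_false hNx hNp
      by_cases h2 : M = -N
      · rw [h2]; exact iff_of_false hNx' hNp'
      constructor
      · intro hM; exact (hsame M hM.1 h1 h2).1 hM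
      · intro hM; exact (hsame M hM.1 h1 h2).2 hM
    rw [heq] at heven
    constructor
    · intro h'; exact absurd (h.symm.trans h') hNN
    · intro h'; exact absurd heven (Nat.not_even_iff_odd.2 h')
  · -- the sides are exchanged
    have hinv : g⁻¹ N = -N := by
      have : g (-N) = N := by rw [map_neg, h, neg_neg]
      calc g⁻¹ N = g⁻¹ (g (-N)) := by rw [this]
        _ = (g⁻¹ * g) (-N) := rfl
        _ = -N := by rw [inv_mul_cancel]; rfl
    have hNx : N ∈ sep G N x (g x) := by
      refine ⟨hNw, hxN, ?_⟩
      rw [hmove, hinv, form_neg_left]; linarith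
    have heq : sep G N x (g x) = insert N (sep G N p (g p)) := by
      ext M
      rw [Set.mem_insert_iff]
      by_cases h1 : M = N
      · rw [h1]; exact iff_of_true hNx (Or.inl rfl)
      by_cases h2 : M = -N
      · rw [h2]
        constructor
        · intro h'; exact absurd h' hNx'
        · rintro (h' | h')
          · exact absurd h'.symm hNN
          · exact absurd h' hNp'
      constructor
      · intro hM; exact Or.inr ((hsame M hM.1 h1 h2).1 hM)
      · rintro (hM | hM)
        · exact absurd hM h1
        · exact (hsame M hM.1 h1 h2).2 hM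
    rw [heq, Set.ncard_insert_of_notMem hNp hfinp, Nat.even_add_one, Nat.not_even_iff_odd] at heven
    exact iff_of_true h heven

/-- if the translates of the plane are pairwise equal or disjoint, no element exchanges its sides -/
theorem no_swap (hΓ : KnotLike Γ) (hG : ∀ g ∈ G, IsIsom g)
    (hd : IsDiscrete G) (hle : Γ ≤ G) (hfi : Γ.relIndex G ≠ 0) (hN : form N N = -1)
    (hcl : CoversClosedSurface Γ N)
    (hdisj : ∀ g ∈ G, g N = N ∨ g N = -N ∨ Disjoint (plane N) (plane (g N)))
    {g : Iso} (hg : g ∈ G) : g N ≠ -N := by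
  intro hgN
  obtain ⟨p, hp, hpN⟩ := plane_nonempty hN
  -- a wall through a point of the plane is the plane itself
  have hthrough : ∀ M ∈ walls G N, ∀ z ∈ plane N, form M z = 0 → M = N ∨ M = -N := by
    rintro M ⟨h, hh, hMh⟩ z hz h0
    have hz' : z ∈ plane (h N) := by
      refine ⟨hz.1, ?_⟩
      rcases hMh with h' | h'
      · rw [← h']; exact h0
      · rw [h', form_neg_left] at h0; linarith
    rcases hdisj h hh with h1 | h1 | h1
    · rcases hMh with h' | h'
      · left; rw [h', h1]
      · right; rw [h', h1]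
    · rcases hMh with h' | h'
      · right; rw [h', h1]
      · left; rw [h', h1, neg_neg]
    · exact absurd hz' (Set.disjoint_left.1 h1 hz)
  have hgen : Generic G N p := fun M hM h0 => hthrough M hM p ⟨hp, hpN⟩ h0
  have hodd := (side_parity hΓ hG hd hle hfi hN hcl ⟨hp, hpN⟩ hgen hg (Or.inr hgN)).1 hgN
  have hgp : g p ∈ H3 := isom_H3 (hG g hg) hp
  have hgpN : form N (g p) = 0 := by
    have h1 : form (-N) (g p) = 0 := by rw [← hgN, form_isom (hG g hg), hpN]
    rw [form_neg_left] at h1; linarith
  have hempty : sep G N p (g p) = ∅ := by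
    rw [Set.eq_empty_iff_forall_notMem]
    rintro M ⟨hM, h1, h2⟩
    set α := form M (g p) with hα
    set β := -form M p with hβ
    have hβ0 : 0 < β := by rw [hβ]; linarith
    have hz : unit (α • p + β • g p) ∈ H3 :=
      comb_unit_mem hp hgp h2.le hβ0.le (by linarith)
    have hzN : form N (unit (α • p + β • g p)) = 0 := by
      have : form N (α • p + β • g p) = 0 := by
        rw [form_add_right, form_smul_right, form_smul_right, hpN, hgpN]; ring
      rw [form_unit, this, mul_zero]
    have hzM : form M (unit (α • p + β • g p)) = 0 := by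
      have : form M (α • p + β • g p) = 0 := by
        rw [form_add_right, form_smul_right, form_smul_right, ← hα, hβ]; ring
      rw [form_unit, this, mul_zero]
    rcases hthrough M hM _ ⟨hz, hzN⟩ hzM with h | h
    · rw [h] at h1; linarith
    · rw [h, form_neg_left] at h1; linarith
  rw [hempty, Set.ncard_empty] at hodd
  exact absurd hodd (by decide)

end Pool.Agent.MP5b7155
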