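import Pool.Agent.MP5b7155.Cusp

namespace Pool.Agent.MP5b7155

open Matrix ComplexConjugate

/-- a matrix of trace two and determinant one different from one, with its powers -/
lemma unipotent_pow {B : Matrix (Fin 2) (Fin 2) ℂ} (hdet : B.det = 1) (htr : B.trace = 2)
    (n : ℕ) : B ^ n = 1 + (n : ℂ) • (B - 1) := by
  have hsq : (B - 1) * (B - 1) = 0 := by
    rw [Matrix.det_fin_two] at hdet
    rw [Matrix.trace_fin_two] at htr
    ext i j
    fin_cases i <;> fin_cases j <;> simp [Matrix.mul_apply, Fin.sum_univ_two]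
    · linear_combination (B 0 0) * htr - hdet
    · linear_combination (B 0 1) * htr
    · linear_combination (B 1 0) * htr
    · linear_combination (B 1 1) * htr - hdet
  induction n with
  | zero => simp
  | succ n ih =>
    rw [pow_succ, ih]
    have e : B = 1 + (B - 1) := by abel
    calc (1 + (n : ℂ) • (B - 1)) * B = (1 + (n : ℂ) • (B - 1)) * (1 + (B - 1)) := by rw [← e]
      _ = 1 + ((B - 1) + (n : ℂ) • (B - 1)) + (n : ℂ) • ((B - 1) * (B - 1)) := by
          rw [mul_add, mul_one, add_mul, one_mul, smul_mul_assoc]; abel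
      _ = 1 + ((n + 1 : ℕ) : ℂ) • (B - 1) := by
          rw [hsq, smul_zero, add_zero]
          congr 1
          push_cast
          rw [add_smul, one_smul, add_comm]

lemma actsBy_mul {g h : Iso} {b c : Matrix (Fin 2) (Fin 2) ℂ} (hg : ActsBy g b)
    (hh : ActsBy h c) : ActsBy (g * h) (b * c) := by
  refine ⟨by rw [Matrix.det_mul, hg.1, hh.1, one_mul], fun X => ?_⟩
  change mat (g (h X)) = _
  rw [hg.2, hh.2, Matrix.conjTranspose_mul]
  simp only [Matrix.mul_assoc]

lemma actsBy_one : ActsBy 1 1 := by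
  refine ⟨Matrix.det_one, fun X => ?_⟩
  change mat X = _
  simp

lemma actsBy_pow {g : Iso} {b : Matrix (Fin 2) (Fin 2) ℂ} (hg : ActsBy g b) (n : ℕ) :
    ActsBy (g ^ n) (b ^ n) := by
  induction n with
  | zero => simpa using actsBy_one
  | succ n ih => rw [pow_succ, pow_succ]; exact actsBy_mul ih hg

lemma adj_mul {b : Matrix (Fin 2) (Fin 2) ℂ} (h : b.det = 1) : b.adjugate * b = 1 := by
  rw [Matrix.adjugate_mul, h, one_smul]

lemma mul_adj {b : Matrix (Fin 2) (Fin 2) ℂ} (h : b.det = 1) : b * b.adjugate = 1 := by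
  rw [Matrix.mul_adjugate, h, one_smul]

lemma det_adj {b : Matrix (Fin 2) (Fin 2) ℂ} (h : b.det = 1) : b.adjugate.det = 1 := by
  rw [Matrix.det_adjugate, h, one_pow]

/-- conjugation of an element acting through `C` by an isometry -/
lemma conj_actsBy {g h : Iso} (hg : IsIsom g) {C : Matrix (Fin 2) (Fin 2) ℂ}
    (hh : ActsBy h C) : ∃ b : Matrix (Fin 2) (Fin 2) ℂ, b.det = 1 ∧
      (ActsBy (g * h * g⁻¹) (b * C * b.adjugate) ∨
      ActsBy (g * h * g⁻¹) (b * Cᴴᵀ * b.adjugate)) := by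
  have hcan : ∀ X, g (g⁻¹ X) = X := fun X => by
    change (g * g⁻¹) X = X
    rw [mul_inv_cancel]; rfl
  rcases hg with ⟨b, hdet, hb⟩ | ⟨b, hdet, hb⟩
  · have e : bᴴ * (b.adjugate)ᴴ = 1 := by
      rw [← Matrix.conjTranspose_mul, adj_mul hdet, Matrix.conjTranspose_one]
    refine ⟨b, hdet, Or.inl ⟨?_, fun X => ?_⟩⟩
    · rw [Matrix.det_mul, Matrix.det_mul, hdet, hh.1, det_adj hdet]; simp
    change mat (g (h (g⁻¹ X))) = _
    have h1 : mat X = b * mat (g⁻¹ X) * bᴴ := by rw [← hb, hcan]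
    have h2 : mat (g⁻¹ X) = b.adjugate * mat X * (b.adjugate)ᴴ := by
      rw [h1]
      calc mat (g⁻¹ X) = 1 * mat (g⁻¹ X) * 1 := by simp
        _ = (b.adjugate * b) * mat (g⁻¹ X) * (bᴴ * (b.adjugate)ᴴ) := by
            rw [adj_mul hdet, e]
        _ = _ := by simp only [Matrix.mul_assoc]
    rw [hb, hh.2, h2]
    simp only [Matrix.conjTranspose_mul, Matrix.mul_assoc]
  · have e : bᴴ * (b.adjugate)ᴴ = 1 := by
      rw [← Matrix.conjTranspose_mul, adj_mul hdet, Matrix.conjTranspose_one]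
    refine ⟨b, hdet, Or.inr ⟨?_, fun X => ?_⟩⟩
    · rw [Matrix.det_mul, Matrix.det_mul, hdet, Matrix.det_transpose, Matrix.det_conjTranspose,
        hh.1, det_adj hdet]; simp
    change mat (g (h (g⁻¹ X))) = _
    have h1 : mat X = b * (mat (g⁻¹ X))ᵀ * bᴴ := by rw [← hb, hcan]
    have h2 : (mat (g⁻¹ X))ᵀ = b.adjugate * mat X * (b.adjugate)ᴴ := by
      rw [h1]
      calc (mat (g⁻¹ X))ᵀ = 1 * (mat (g⁻¹ X))ᵀ * 1 := by simp
        _ = (b.adjugate * b) * (mat (g⁻¹ X))ᵀ * (bᴴ * (b.adjugate)ᴴ) := by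
            rw [adj_mul hdet, e]
        _ = _ := by simp only [Matrix.mul_assoc]
    have h4 : (Cᴴᵀ)ᴴ = Cᵀ := by
      ext i j; simp [Matrix.conjTranspose_apply]
    rw [hb, hh.2, Matrix.transpose_mul, Matrix.transpose_mul, h2]
    simp only [Matrix.conjTranspose_mul, Matrix.mul_assoc, h4]

lemma conj_trace {b : Matrix (Fin 2) (Fin 2) ℂ} (h : b.det = 1) (C : Matrix (Fin 2) (Fin 2) ℂ) :
    (b * C * b.adjugate).trace = C.trace := by
  rw [Matrix.trace_mul_comm, ← Matrix.mul_assoc, adj_mul h, Matrix.one_mul]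

lemma conj_eq_scalar {b C : Matrix (Fin 2) (Fin 2) ℂ} (hb : b.det = 1) {c : ℂ}
    (h : b * C * b.adjugate = c • (1 : Matrix (Fin 2) (Fin 2) ℂ)) :
    C = c • (1 : Matrix (Fin 2) (Fin 2) ℂ) := by
  have h1 : C = b.adjugate * (b * C * b.adjugate) * b := by
    calc C = 1 * C * 1 := by simp
      _ = (b.adjugate * b) * C * (b.adjugate * b) := by rw [adj_mul hb]
      _ = _ := by simp only [Matrix.mul_assoc]
  rw [h1, h, mul_smul_comm, mul_one, smul_mul_assoc, adj_mul hb]

/-- powers of a parabolic matrix are parabolic -/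
lemma parabolic_pow_matrix {b : Matrix (Fin 2) (Fin 2) ℂ} (hdet : b.det = 1)
    (htr : b.trace ^ 2 = 4) (h1 : b ≠ 1) (h2 : b ≠ -1) {n : ℕ} (hn : n ≠ 0) :
    (b ^ n).trace ^ 2 = 4 ∧ b ^ n ≠ 1 ∧ b ^ n ≠ -1 := by
  have h4 : (b.trace - 2) * (b.trace + 2) = 0 := by linear_combination htr
  obtain ⟨B, ε, hε, hBb, hBdet, hBtr, hB1⟩ : ∃ (B : Matrix (Fin 2) (Fin 2) ℂ) (ε : ℂ),
      (ε = 1 ∨ ε = -1) ∧ b = ε • B ∧ B.det = 1 ∧ B.trace = 2 ∧ B ≠ 1 := by
    rcases mul_eq_zero.1 h4 with h | h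
    · exact ⟨b, 1, Or.inl rfl, by simp, hdet, by linear_combination h, h1⟩
    · refine ⟨-b, -1, Or.inr rfl, by simp, ?_, ?_, ?_⟩
      · rw [Matrix.det_neg, hdet]; simp
      · rw [Matrix.trace_neg]; linear_combination -h
      · intro h'; apply h2; rw [← h', neg_neg]
  have hBn := unipotent_pow hBdet hBtr n
  have hεn : ε ^ n = 1 ∨ ε ^ n = -1 := by
    rcases hε with h | h
    · left; rw [h, one_pow]
    · rw [h]; exact neg_one_pow_eq_or ℂ n
  have htrB1 : (B - 1).trace = 0 := by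
    rw [Matrix.trace_sub, hBtr, Matrix.trace_one]; simp
  have hnu : (n : ℂ) • (B - 1) ≠ 0 := by
    intro h
    rcases smul_eq_zero.1 h with h | h
    · exact hn (by exact_mod_cast h)
    · exact hB1 (sub_eq_zero.1 h)
  have htrn : (B ^ n).trace = 2 := by
    rw [hBn, Matrix.trace_add, Matrix.trace_one, Matrix.trace_smul, htrB1]; simp
  have hne1 : B ^ n ≠ 1 := by
    rw [hBn]; intro h
    exact hnu (by simpa using h)
  have hne2 : B ^ n ≠ -1 := by
    intro h
    have := congrArg Matrix.trace h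
    rw [htrn, Matrix.trace_neg, Matrix.trace_one] at this
    simp at this
    norm_num at this
  have hbn : b ^ n = (ε ^ n) • B ^ n := by
    rw [hBb, smul_pow]
  rw [hbn]
  rcases hεn with h | h <;> rw [h]
  · exact ⟨by rw [one_smul, htrn]; norm_num, by rwa [one_smul], by rwa [one_smul]⟩
  · refine ⟨by rw [Matrix.trace_smul, htrn]; norm_num, ?_, ?_⟩
    · intro h'
      apply hne2
      rw [← h']; simp
    · intro h'
      apply hne1
      have : -(-(1 : Matrix (Fin 2) (Fin 2) ℂ)) = 1 := neg_neg 1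
      rw [← this, ← h']; simp

/-- powers and conjugates of parabolic elements are parabolic -/
lemma parabolic_conj_pow {μ g : Iso} (hμ : IsParabolic μ) (hg : IsIsom g) {n : ℕ} (hn : n ≠ 0) :
    IsParabolic ((g * μ * g⁻¹) ^ n) := by
  obtain ⟨b, hb, htr, h1, h2⟩ := hμ
  have hpow : (g * μ * g⁻¹) ^ n = g * μ ^ n * g⁻¹ := conj_pow
  rw [hpow]
  have hC := parabolic_pow_matrix hb.1 htr h1 h2 hn
  obtain ⟨c, hcdet, hc⟩ := conj_actsBy hg (actsBy_pow hb n)
  set C := b ^ n with hCdef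
  rcases hc with hc | hc
  · refine ⟨_, hc, ?_, ?_, ?_⟩
    · rw [conj_trace hcdet]; exact hC.1
    · intro h
      apply hC.2.1
      have := conj_eq_scalar (c := 1) hcdet (by rw [h, one_smul])
      rw [this, one_smul]
    · intro h
      apply hC.2.2
      have := conj_eq_scalar (c := -1) hcdet (by rw [h, neg_smul, one_smul])
      rw [this, neg_smul, one_smul]
  · refine ⟨_, hc, ?_, ?_, ?_⟩
    · rw [conj_trace hcdet, Matrix.trace_transpose, Matrix.trace_conjTranspose, ← star_pow, hC.1]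
      simp
    · intro h
      apply hC.2.1
      have h' := conj_eq_scalar (c := 1) hcdet (by rw [h, one_smul])
      rw [one_smul] at h'
      have := congrArg (fun M : Matrix (Fin 2) (Fin 2) ℂ => Mᵀᴴ) h'
      simpa using this
    · intro h
      apply hC.2.2
      have h' := conj_eq_scalar (c := -1) hcdet (by rw [h, neg_smul, one_smul])
      rw [neg_smul, one_smul] at h'
      have := congrArg (fun M : Matrix (Fin 2) (Fin 2) ℂ => Mᵀᴴ) h'
      simpa using this

/-- every element of a finite index overgroup agrees with an element of the knot group up to the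
stabiliser of the cusp -/
lemma cusp_transitive {Γ G : Subgroup Iso} (hΓ : KnotLike Γ)
    (hG : ∀ g ∈ G, IsIsom g) (hle : Γ ≤ G) (hfin : Γ.relIndex G ≠ 0) {μ : Iso} (hμ : μ ∈ Γ)
    (hpar : IsParabolic μ) {v : Herm} (hv : IsNull v) (hμv : μ v = v) {g : Iso} (hg : g ∈ G) :
    ∃ γ ∈ Γ, ∃ c : ℝ, 0 < c ∧ γ (g v) = c • v := by
  have hconj : g * μ * g⁻¹ ∈ G := G.mul_mem (G.mul_mem hg (hle hμ)) (G.inv_mem hg)
  obtain ⟨n, hn, -, hmem⟩ := Subgroup.exists_pow_mem_of_relIndex_ne_zero hfin hconj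
  have hmem' : (g * μ * g⁻¹) ^ n ∈ Γ := hmem.1
  have hfix : ((g * μ * g⁻¹) ^ n) (g v) = g v := by
    have h1 : (g * μ * g⁻¹) (g v) = g v := by
      change g (μ (g⁻¹ (g v))) = g v
      have : g⁻¹ (g v) = v := by
        change (g⁻¹ * g) v = v
        rw [inv_mul_cancel]; rfl
      rw [this, hμv]
    have : ∀ m : ℕ, ((g * μ * g⁻¹) ^ m) (g v) = g v := by
      intro m
      induction m with
      | zero => rfl
      | succ m ih =>
        rw [pow_succ]
        change ((g * μ * g⁻¹) ^ m) ((g * μ * g⁻¹) (g v)) = g v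
        rw [h1, ih]
    exact this n
  exact hΓ.oneCusp _ hmem' _ hμ (parabolic_conj_pow hpar (hG g hg) hn.ne') hpar _ _
    (isom_null (hG g hg) hv) hv ⟨1, one_pos, by rw [hfix, one_smul]⟩
    ⟨1, one_pos, by rw [hμv, one_smul]⟩

end Pool.Agent.MP5b7155
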