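import Pool.Agent.MP5b7155.Sep

namespace Pool.Agent.MP5b7155

open Matrix ComplexConjugate

/-- normal form of a parabolic matrix -/
lemma parabolic_matrix {B : Matrix (Fin 2) (Fin 2) ℂ} (hdet : B.det = 1) (htr : B.trace = 2)
    (hB : B ≠ 1) : ∃ e₀ e₁ : ℂ, (e₀ ≠ 0 ∨ e₁ ≠ 0) ∧
      B = !![1 - e₀ * e₁, e₀ ^ 2; -e₁ ^ 2, 1 + e₀ * e₁] := by
  rw [Matrix.det_fin_two] at hdet
  rw [Matrix.trace_fin_two] at htr
  obtain ⟨t, ht⟩ : ∃ t : ℂ, t = B 1 1 - 1 := ⟨_, rfl⟩
  have h11 : B 1 1 = 1 + t := by rw [ht]; ring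
  have h00 : B 0 0 = 1 - t := by linear_combination htr - h11
  have ht2 : t ^ 2 = - (B 0 1 * B 1 0) := by
    rw [h11, h00] at hdet; linear_combination -hdet
  obtain ⟨e₀, he₀⟩ := IsAlgClosed.exists_pow_nat_eq (B 0 1) (n := 2) (by norm_num)
  by_cases hq : e₀ = 0
  · have h01 : B 0 1 = 0 := by rw [← he₀, hq]; ring
    have ht0 : t = 0 := by
      rw [h01] at ht2
      have : t ^ 2 = 0 := by rw [ht2]; ring
      exact pow_eq_zero_iff (by norm_num) |>.1 this
    obtain ⟨e₁, he₁⟩ := IsAlgClosed.exists_pow_nat_eq (-(B 1 0)) (n := 2) (by norm_num)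
    have h10 : B 1 0 = - e₁ ^ 2 := by rw [he₁]; ring
    refine ⟨0, e₁, ?_, ?_⟩
    · by_contra hcon
      push Not at hcon
      apply hB
      ext i j
      fin_cases i <;> fin_cases j
      · simp [h00, ht0]
      · simp [h01]
      · simp [h10, hcon.2]
      · simp [h11, ht0]
    · ext i j
      fin_cases i <;> fin_cases j
      · simp [h00, ht0]
      · simp [h01]
      · simp [h10]
      · simp [h11, ht0]
  · refine ⟨e₀, t / e₀, Or.inl hq, ?_⟩
    have h10 : B 1 0 = - (t / e₀) ^ 2 := by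
      field_simp
      rw [he₀, ht2]; ring
    have hm : e₀ * (t / e₀) = t := by field_simp
    ext i j
    fin_cases i <;> fin_cases j
    · simp [h00, hm]
    · simp [he₀]
    · simp [h10]
    · simp [h11, hm]

/-- the null vector `e e^*` -/
noncomputable def nul (e₀ e₁ : ℂ) : Herm := (Complex.normSq e₀, Complex.normSq e₁, e₀ * conj e₁)

lemma isNull_nul {e₀ e₁ : ℂ} (h : e₀ ≠ 0 ∨ e₁ ≠ 0) : IsNull (nul e₀ e₁) := by
  refine ⟨?_, ?_, Complex.normSq_nonneg _, Complex.normSq_nonneg _⟩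
  · rw [form_self]
    simp only [nul, Complex.normSq_apply, Complex.mul_re, Complex.mul_im, Complex.conj_re,
      Complex.conj_im]
    ring
  · intro h0
    have h1 : Complex.normSq e₀ = 0 := congrArg Prod.fst h0
    have h2 : Complex.normSq e₁ = 0 := congrArg (fun p : Herm => p.2.1) h0
    rw [Complex.normSq_eq_zero] at h1 h2
    rcases h with h | h
    · exact h h1
    · exact h h2

lemma mat_injective {X Y : Herm} (h : mat X = mat Y) : X = Y := by
  have h1 := congrArg (fun M : Matrix (Fin 2) (Fin 2) ℂ => (M 0 0).re) h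
  have h2 := congrArg (fun M : Matrix (Fin 2) (Fin 2) ℂ => (M 1 1).re) h
  have h3 := congrArg (fun M : Matrix (Fin 2) (Fin 2) ℂ => M 0 1) h
  simp [mat] at h1 h2 h3
  exact Prod.ext h1 (Prod.ext h2 h3)

/-- a parabolic isometry fixes the null vector and moves a point by an amount governed by the form
with this null vector -/
lemma parabolic_data {μ : Iso} (hμ : IsParabolic μ) :
    ∃ v : Herm, IsNull v ∧ μ v = v ∧ ∀ X, form X (μ X) = form X X + 2 * (form X v) ^ 2 := by
  obtain ⟨b, ⟨hdet, hb⟩, htr, h1, h2⟩ := hμ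
  obtain ⟨B, hBa, hBdet, hBtr, hB1⟩ : ∃ B : Matrix (Fin 2) (Fin 2) ℂ,
      (∀ X, mat (μ X) = B * mat X * Bᴴ) ∧ B.det = 1 ∧ B.trace = 2 ∧ B ≠ 1 := by
    have h4 : (b.trace - 2) * (b.trace + 2) = 0 := by linear_combination htr
    rcases mul_eq_zero.1 h4 with h | h
    · exact ⟨b, hb, hdet, by linear_combination h, h1⟩
    · refine ⟨-b, ?_, ?_, ?_, ?_⟩
      · intro X
        rw [hb X, Matrix.conjTranspose_neg]
        simp
      · rw [Matrix.det_neg, hdet]; simp
      · rw [Matrix.trace_neg]; linear_combination -h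
      · intro h'
        apply h2
        rw [← h', neg_neg]
  obtain ⟨e₀, e₁, he, hBe⟩ := parabolic_matrix hBdet hBtr hB1
  refine ⟨nul e₀ e₁, isNull_nul he, ?_, ?_⟩
  · apply mat_injective
    rw [hBa, hBe]
    ext i j
    fin_cases i <;> fin_cases j <;> apply Complex.ext <;>
      simp [nul, mat, Matrix.mul_apply, Fin.sum_univ_two, Matrix.conjTranspose_apply,
        Complex.normSq_apply, pow_two] <;> ring
  · intro X
    have hX := hBa X
    rw [hBe] at hX
    have k1 := congrArg (fun M : Matrix (Fin 2) (Fin 2) ℂ => (M 0 0).re) hX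
    have k2 := congrArg (fun M : Matrix (Fin 2) (Fin 2) ℂ => (M 1 1).re) hX
    have k3 := congrArg (fun M : Matrix (Fin 2) (Fin 2) ℂ => (M 0 1).re) hX
    have k4 := congrArg (fun M : Matrix (Fin 2) (Fin 2) ℂ => (M 0 1).im) hX
    simp [mat, Matrix.mul_apply, Fin.sum_univ_two, Matrix.conjTranspose_apply, pow_two] at k1 k2 k3 k4
    have e : ∀ X Y : Herm, form X Y = (X.1 * Y.2.1 + X.2.1 * Y.1) / 2
        - (X.2.2.re * Y.2.2.re + X.2.2.im * Y.2.2.im) := by
      intro X Y
      simp only [form, Complex.mul_re, Complex.conj_re, Complex.conj_im]; ring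
    rw [e X (μ X), e X (nul e₀ e₁), e X X, k1, k2, k3, k4]
    simp only [nul, Complex.normSq_apply, Complex.mul_re, Complex.mul_im, Complex.conj_re,
      Complex.conj_im]
    ring

end Pool.Agent.MP5b7155
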