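import Pool.Agent.MP5b7155.Basic

namespace Pool.Agent.MP5b7155

open Matrix ComplexConjugate

/-- the quadratic form of a positive semidefinite Hermitian matrix is non-negative (in real
coordinates) -/
lemma quad_nonneg {a b x y : ℝ} (ha : 0 ≤ a) (hb : 0 ≤ b) (h : x ^ 2 + y ^ 2 ≤ a * b)
    (p q r s : ℝ) :
    0 ≤ a * (p ^ 2 + q ^ 2) + b * (r ^ 2 + s ^ 2)
      + 2 * ((p * r + q * s) * x - (q * r - p * s) * y) := by
  rcases ha.eq_or_lt with rfl | ha
  · have h0 : x ^ 2 + y ^ 2 ≤ 0 := by simpa using h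
    have hx : x = 0 := by nlinarith [sq_nonneg x, sq_nonneg y]
    have hy : y = 0 := by nlinarith [sq_nonneg x, sq_nonneg y]
    subst hx hy
    have := mul_nonneg hb (add_nonneg (sq_nonneg r) (sq_nonneg s))
    simpa using this
  · have key : 0 ≤ a * (a * (p ^ 2 + q ^ 2) + b * (r ^ 2 + s ^ 2)
        + 2 * ((p * r + q * s) * x - (q * r - p * s) * y)) := by
      have e : a * (a * (p ^ 2 + q ^ 2) + b * (r ^ 2 + s ^ 2)
          + 2 * ((p * r + q * s) * x - (q * r - p * s) * y))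
          = (a * p + (r * x + s * y)) ^ 2 + (a * q + (s * x - r * y)) ^ 2
            + (a * b - (x ^ 2 + y ^ 2)) * (r ^ 2 + s ^ 2) := by ring
      rw [e]
      have := mul_nonneg (sub_nonneg.2 h) (add_nonneg (sq_nonneg r) (sq_nonneg s))
      positivity
    exact nonneg_of_mul_nonneg_right key ha

lemma mat_re00 (X : Herm) : (mat X 0 0).re = X.1 := by simp [mat]

lemma mat_re11 (X : Herm) : (mat X 1 1).re = X.2.1 := by simp [mat]

lemma form_self (X : Herm) : form X X = X.1 * X.2.1 - (X.2.2.re ^ 2 + X.2.2.im ^ 2) := by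
  simp only [form, Complex.mul_re, Complex.conj_re, Complex.conj_im]
  ring

lemma entry_nonneg (B : Matrix (Fin 2) (Fin 2) ℂ) {X : Herm} (h : 0 ≤ form X X) (h1 : 0 ≤ X.1)
    (h2 : 0 ≤ X.2.1) (i : Fin 2) :
    0 ≤ ((B * mat X * Bᴴ) i i).re ∧ 0 ≤ ((B * (mat X)ᵀ * Bᴴ) i i).re := by
  rw [form_self] at h
  have h' : X.2.2.re ^ 2 + X.2.2.im ^ 2 ≤ X.1 * X.2.1 := by linarith
  have h'' : X.2.2.re ^ 2 + (-X.2.2.im) ^ 2 ≤ X.1 * X.2.1 := by rw [neg_sq]; exact h'
  constructor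
  · have := quad_nonneg h1 h2 h' (B i 0).re (B i 0).im (B i 1).re (B i 1).im
    have e : ((B * mat X * Bᴴ) i i).re = X.1 * ((B i 0).re ^ 2 + (B i 0).im ^ 2)
        + X.2.1 * ((B i 1).re ^ 2 + (B i 1).im ^ 2)
        + 2 * (((B i 0).re * (B i 1).re + (B i 0).im * (B i 1).im) * X.2.2.re
          - ((B i 0).im * (B i 1).re - (B i 0).re * (B i 1).im) * X.2.2.im) := by
      simp [Matrix.mul_apply, Fin.sum_univ_two, mat, Complex.mul_re, Complex.mul_im,
        Matrix.conjTranspose_apply]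
      ring
    rw [e]; exact this
  · have := quad_nonneg h1 h2 h'' (B i 0).re (B i 0).im (B i 1).re (B i 1).im
    have e : ((B * (mat X)ᵀ * Bᴴ) i i).re = X.1 * ((B i 0).re ^ 2 + (B i 0).im ^ 2)
        + X.2.1 * ((B i 1).re ^ 2 + (B i 1).im ^ 2)
        + 2 * (((B i 0).re * (B i 1).re + (B i 0).im * (B i 1).im) * X.2.2.re
          - ((B i 0).im * (B i 1).re - (B i 0).re * (B i 1).im) * (-X.2.2.im)) := by
      simp [Matrix.mul_apply, Fin.sum_univ_two, mat, Complex.mul_re, Complex.mul_im,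
        Matrix.conjTranspose_apply, Matrix.transpose_apply]
      ring
    rw [e]; exact this

lemma isom_nonneg {g : Iso} (hg : IsIsom g) {X : Herm} (h : 0 ≤ form X X) (h1 : 0 ≤ X.1)
    (h2 : 0 ≤ X.2.1) : 0 ≤ (g X).1 ∧ 0 ≤ (g X).2.1 := by
  rw [← mat_re00 (g X), ← mat_re11 (g X)]
  rcases hg with ⟨b, -, hb⟩ | ⟨b, -, hb⟩
  · rw [hb X]
    exact ⟨(entry_nonneg _ h h1 h2 0).1, (entry_nonneg _ h h1 h2 1).1⟩
  · rw [hb X]
    exact ⟨(entry_nonneg _ h h1 h2 0).2, (entry_nonneg _ h h1 h2 1).2⟩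

lemma H3_snd_pos {X : Herm} (hX : X ∈ H3) : 0 < X.2.1 := by
  obtain ⟨h, h1⟩ := hX
  rw [form_self] at h
  by_contra hn
  push Not at hn
  nlinarith [sq_nonneg X.2.2.re, sq_nonneg X.2.2.im, mul_nonneg h1.le (neg_nonneg.2 hn)]

lemma isom_H3 {g : Iso} (hg : IsIsom g) {X : Herm} (hX : X ∈ H3) : g X ∈ H3 := by
  have h2 := H3_snd_pos hX
  obtain ⟨h, h1⟩ := hX
  have hg1 := isom_nonneg hg (by rw [h]; norm_num) h1.le h2.le
  have hf := form_self_isom hg X
  refine ⟨by rw [hf, h], ?_⟩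
  rw [h, form_self] at hf
  rcases hg1.1.eq_or_lt with h0 | h0
  · rw [← h0] at hf
    nlinarith [sq_nonneg (g X).2.2.re, sq_nonneg (g X).2.2.im]
  · exact h0

lemma isom_null {g : Iso} (hg : IsIsom g) {v : Herm} (hv : IsNull v) : IsNull (g v) := by
  obtain ⟨h, h0, h1, h2⟩ := hv
  have hg1 := isom_nonneg hg (by rw [h]) h1 h2
  refine ⟨by rw [form_self_isom hg, h], ?_, hg1.1, hg1.2⟩
  intro h'
  exact h0 (by simpa using h')

/-- reversed Cauchy-Schwarz: two points of hyperbolic space have form at least one -/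
lemma one_le_form {X Y : Herm} (hX : X ∈ H3) (hY : Y ∈ H3) : 1 ≤ form X Y := by
  have hX2 := H3_snd_pos hX
  have hY2 := H3_snd_pos hY
  obtain ⟨hX0, hX1⟩ := hX
  obtain ⟨hY0, hY1⟩ := hY
  rw [form_self] at hX0 hY0
  have e : form X Y = (X.1 * Y.2.1 + X.2.1 * Y.1) / 2
      - (X.2.2.re * Y.2.2.re + X.2.2.im * Y.2.2.im) := by
    simp only [form, Complex.mul_re, Complex.conj_re, Complex.conj_im]; ring
  rw [e]
  obtain ⟨a, b, z⟩ := X
  obtain ⟨c, d, w⟩ := Y
  simp only at *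
  -- multiply by 2 a c
  have key : 0 ≤ 2 * (a * c) * ((a * d + b * c) / 2 - (z.re * w.re + z.im * w.im) - 1) := by
    have e2 : 2 * (a * c) * ((a * d + b * c) / 2 - (z.re * w.re + z.im * w.im) - 1)
        = a ^ 2 * (c * d) + c ^ 2 * (a * b) - 2 * (a * c) * (z.re * w.re + z.im * w.im)
          - 2 * (a * c) := by ring
    have hcd : c * d = 1 + (w.re ^ 2 + w.im ^ 2) := by linarith
    have hab : a * b = 1 + (z.re ^ 2 + z.im ^ 2) := by linarith
    rw [e2, hcd, hab]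
    nlinarith [sq_nonneg (a - c), sq_nonneg (a * w.re - c * z.re), sq_nonneg (a * w.im - c * z.im)]
  have hpos : 0 < 2 * (a * c) := by positivity
  have := nonneg_of_mul_nonneg_right key hpos
  linarith

/-- a point of hyperbolic space has positive form with a null vector -/
lemma form_null_bound {X v : Herm} (hX : X ∈ H3) (hv : IsNull v) :
    v.1 + v.2.1 ≤ 2 * (X.1 + X.2.1) * form X v := by
  have hX2 := H3_snd_pos hX
  obtain ⟨hX0, hX1⟩ := hX
  obtain ⟨hv0, -, hv1, hv2⟩ := hv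
  rw [form_self] at hX0 hv0
  have e : form X v = (X.1 * v.2.1 + X.2.1 * v.1) / 2
      - (X.2.2.re * v.2.2.re + X.2.2.im * v.2.2.im) := by
    simp only [form, Complex.mul_re, Complex.conj_re, Complex.conj_im]; ring
  rw [e]
  obtain ⟨a, b, z⟩ := X
  obtain ⟨α, β, ζ⟩ := v
  simp only at *
  have hab : a * b = 1 + (z.re ^ 2 + z.im ^ 2) := by linarith
  have hαβ : α * β = ζ.re ^ 2 + ζ.im ^ 2 := by linarith
  have k1 := quad_nonneg (a := β) (b := α) (x := ζ.re) (y := ζ.im) hv2 hv1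
    (by rw [mul_comm]; linarith) (-a) 0 z.re (z.im)
  have k2 := quad_nonneg (a := α) (b := β) (x := ζ.re) (y := ζ.im) hv1 hv2
    (by linarith) (-b) 0 z.re z.im
  have e3 : 2 * (a + b) * ((a * β + b * α) / 2 - (z.re * ζ.re + z.im * ζ.im))
      = (a ^ 2 * β - 2 * a * (z.re * ζ.re + z.im * ζ.im))
        + (b ^ 2 * α - 2 * b * (z.re * ζ.re + z.im * ζ.im)) + (a * b) * (α + β) := by ring
  rw [e3, hab]
  nlinarith [k1, k2]

end Pool.Agent.MP5b7155
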