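import Pool.Agent.MP5b7155.Pos

namespace Pool.Agent.MP5b7155

open Matrix ComplexConjugate

lemma continuous_form : Continuous (fun p : Herm × Herm => form p.1 p.2) := by
  unfold form
  fun_prop

lemma continuous_form_right (X : Herm) : Continuous (fun Y => form X Y) :=
  continuous_form.comp (by fun_prop : Continuous fun Y : Herm => (X, Y))

lemma continuous_form_left (Y : Herm) : Continuous (fun X => form X Y) :=
  continuous_form.comp (by fun_prop : Continuous fun X : Herm => (X, Y))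

/-- rescaling to hyperbolic space -/
noncomputable def unit (w : Herm) : Herm := (1 / Real.sqrt (form w w)) • w

lemma form_unit (M w : Herm) : form M (unit w) = (1 / Real.sqrt (form w w)) * form M w := by
  rw [unit, form_smul_right]

lemma unit_mem {w : Herm} (hq : 0 < form w w) (hw : 0 < w.1) : unit w ∈ H3 := by
  have hs : 0 < Real.sqrt (form w w) := Real.sqrt_pos.2 hq
  refine ⟨?_, ?_⟩
  · rw [unit, form_smul_left, form_smul_right, ← mul_assoc, ← sq, div_pow, one_pow,
      Real.sq_sqrt hq.le]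
    field_simp
  · simp only [unit, Prod.smul_fst, smul_eq_mul]
    positivity

lemma form_comb (x y : Herm) (α β : ℝ) :
    form (α • x + β • y) (α • x + β • y)
      = α ^ 2 * form x x + β ^ 2 * form y y + 2 * α * β * form x y := by
  simp only [form_add_left, form_add_right, form_smul_left, form_smul_right]
  rw [form_comm y x]; ring

lemma form_comb_ge {x y : Herm} (hx : x ∈ H3) (hy : y ∈ H3) {α β : ℝ} (hα : 0 ≤ α)
    (hβ : 0 ≤ β) : (α + β) ^ 2 ≤ form (α • x + β • y) (α • x + β • y) := by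
  rw [form_comb, hx.1, hy.1]
  have h1 := one_le_form hx hy
  have : 0 ≤ α * β := mul_nonneg hα hβ
  nlinarith

lemma comb_fst_pos {x y : Herm} (hx : x ∈ H3) (hy : y ∈ H3) {α β : ℝ} (hα : 0 ≤ α)
    (hβ : 0 ≤ β) (h : 0 < α + β) : 0 < (α • x + β • y).1 := by
  have e : (α • x + β • y).1 = α * x.1 + β * y.1 := by simp
  rw [e]
  have hx1 := hx.2
  have hy1 := hy.2
  rcases hα.eq_or_lt with h0 | h0
  · have : 0 < β := by linarith
    have := mul_pos this hy1
    nlinarith [mul_nonneg hα hx1.le]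
  · have := mul_pos h0 hx1
    nlinarith [mul_nonneg hβ hy1.le]

lemma comb_unit_mem {x y : Herm} (hx : x ∈ H3) (hy : y ∈ H3) {α β : ℝ} (hα : 0 ≤ α)
    (hβ : 0 ≤ β) (h : 0 < α + β) : unit (α • x + β • y) ∈ H3 :=
  unit_mem (lt_of_lt_of_le (by positivity) (form_comb_ge hx hy hα hβ))
    (comb_fst_pos hx hy hα hβ h)

/-- the geodesic segment -/
noncomputable def seg (x y : Herm) (t : ℝ) : Herm := unit ((1 - t) • x + t • y)

lemma seg_mem {x y : Herm} (hx : x ∈ H3) (hy : y ∈ H3) {t : ℝ} (ht : t ∈ Set.Icc (0 : ℝ) 1) :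
    seg x y t ∈ H3 :=
  comb_unit_mem hx hy (by linarith [ht.2]) ht.1 (by linarith)

lemma compact_seg {x y : Herm} (hx : x ∈ H3) (hy : y ∈ H3) :
    IsCompact (seg x y '' Set.Icc (0 : ℝ) 1) := by
  apply isCompact_Icc.image_of_continuousOn
  have hc : Continuous fun t : ℝ => (1 - t) • x + t • y := by fun_prop
  have hf : Continuous fun t : ℝ => form ((1 - t) • x + t • y) ((1 - t) • x + t • y) :=
    continuous_form.comp (hc.prodMk hc)
  have hcoef : ContinuousOn (fun t : ℝ =>
      1 / Real.sqrt (form ((1 - t) • x + t • y) ((1 - t) • x + t • y))) (Set.Icc 0 1) := by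
    apply ContinuousOn.div continuousOn_const (Real.continuous_sqrt.comp hf).continuousOn
    intro t ht
    have := form_comb_ge hx hy (α := 1 - t) (β := t) (by linarith [ht.2]) ht.1
    have h1 : (1 - t + t) = 1 := by ring
    rw [h1] at this
    exact (Real.sqrt_pos.2 (by linarith)).ne'
  exact hcoef.smul hc.continuousOn

variable {Γ G : Subgroup Iso} {N : Herm}

lemma neg_mem_walls {M : Herm} (hM : M ∈ walls G N) : -M ∈ walls G N := by
  obtain ⟨g, hg, h | h⟩ := hM
  · exact ⟨g, hg, Or.inr (by rw [h])⟩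
  · exact ⟨g, hg, Or.inl (by rw [h, neg_neg])⟩

lemma apply_mem_walls {M : Herm} (hM : M ∈ walls G N) {h : Iso} (hh : h ∈ G) :
    h M ∈ walls G N := by
  obtain ⟨g, hg, e | e⟩ := hM
  · exact ⟨h * g, G.mul_mem hh hg, Or.inl (by rw [e]; rfl)⟩
  · exact ⟨h * g, G.mul_mem hh hg, Or.inr (by rw [e, map_neg]; rfl)⟩

lemma wall_rep (hG : ∀ g ∈ G, IsIsom g) (hle : Γ ≤ G) {D : Set Herm}
    (hD : ∀ X ∈ plane N, ∃ s ∈ Γ, (s N = N ∨ s N = -N) ∧ ∃ d ∈ D, s d = X) {M z : Herm}
    (hM : M ∈ walls G N) (hz : z ∈ H3) (h0 : form M z = 0) :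
    ∃ h ∈ G, ∃ d ∈ D, h d = z ∧ (M = h N ∨ M = -(h N)) := by
  obtain ⟨g, hg, hMg⟩ := hM
  have hgi : g⁻¹ ∈ G := G.inv_mem hg
  have hfN : form (g N) z = 0 := by
    rcases hMg with h | h
    · rw [← h]; exact h0
    · rw [h, form_neg_left] at h0; linarith
  have hcancel : g (g⁻¹ z) = z := by
    change (g * g⁻¹) z = z
    rw [mul_inv_cancel]; rfl
  have hp : g⁻¹ z ∈ plane N := by
    refine ⟨isom_H3 (hG _ hgi) hz, ?_⟩
    rw [← form_isom (hG _ hg), hcancel]; exact hfN
  obtain ⟨s, hs, hsN, d, hd, hsd⟩ := hD _ hp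
  refine ⟨g * s, G.mul_mem hg (hle hs), d, hd, ?_, ?_⟩
  · change g (s d) = z
    rw [hsd, hcancel]
  · change M = g (s N) ∨ M = -(g (s N))
    rcases hsN with h | h <;> rw [h]
    · exact hMg
    · rw [map_neg, neg_neg]; exact hMg.symm

lemma sep_finite (hG : ∀ g ∈ G, IsIsom g) (hd : IsDiscrete G) (hle : Γ ≤ G)
    (hcl : CoversClosedSurface Γ N) {x y : Herm} (hx : x ∈ H3) (hy : y ∈ H3) :
    (sep G N x y).Finite := by
  obtain ⟨D, hDp, hDc, hD⟩ := hcl
  have hK : D ∪ seg x y '' Set.Icc (0 : ℝ) 1 ⊆ H3 := by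
    rintro z (hz | ⟨t, ht, rfl⟩)
    · exact (hDp hz).1
    · exact seg_mem hx hy ht
  have hF := hd _ hK (hDc.union (compact_seg hx hy))
  refine ((hF.image fun h => h N).union (hF.image fun h => -(h N))).subset ?_
  rintro M ⟨hM, h1, h2⟩
  -- the intersection point
  set t := -form M x / (form M y - form M x) with ht
  have hden : 0 < form M y - form M x := by linarith
  have ht0 : t ∈ Set.Icc (0 : ℝ) 1 := by
    constructor
    · rw [ht]; apply div_nonneg <;> linarith
    · rw [ht, div_le_one hden]; linarith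
  have hz0 : form M (seg x y t) = 0 := by
    have e0 : form M ((1 - t) • x + t • y) = 0 := by
      rw [form_add_right, form_smul_right, form_smul_right, ht]
      field_simp; ring
    rw [seg, form_unit, e0, mul_zero]
  obtain ⟨h, hh, d, hd', hhd, hMh⟩ := wall_rep hG hle hD hM (seg_mem hx hy ht0) hz0
  have hmem : h ∈ {g : Iso | g ∈ G ∧ ∃ x' ∈ D ∪ seg x y '' Set.Icc (0 : ℝ) 1,
      g x' ∈ D ∪ seg x y '' Set.Icc (0 : ℝ) 1} :=
    ⟨hh, d, Or.inl hd', Or.inr ⟨t, ht0, hhd.symm⟩⟩
  rcases hMh with h' | h'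
  · exact Or.inl ⟨h, hmem, h'.symm⟩
  · exact Or.inr ⟨h, hmem, h'.symm⟩

/-- the point is on no wall -/
def Off (G : Subgroup Iso) (N x : Herm) : Prop := ∀ M ∈ walls G N, form M x ≠ 0

/-- symmetry: a wall separates `x` from `y` iff it separates `y` from `x` -/
lemma ncard_sep_comm (x y : Herm) : (sep G N x y).ncard = (sep G N y x).ncard := by
  have : sep G N y x = (fun M => -M) '' sep G N x y := by
    ext M
    constructor
    · rintro ⟨h1, h2, h3⟩
      refine ⟨-M, ⟨neg_mem_walls h1, ?_, ?_⟩, neg_neg M⟩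
      · rw [form_neg_left]; linarith
      · rw [form_neg_left]; linarith
    · rintro ⟨M', ⟨h1, h2, h3⟩, rfl⟩
      refine ⟨neg_mem_walls h1, ?_, ?_⟩
      · simp only [form_neg_left]; linarith
      · simp only [form_neg_left]; linarith
  rw [this, Set.ncard_image_of_injective _ neg_injective]

/-- invariance of the number of separating walls -/
lemma ncard_sep_apply (hG : ∀ g ∈ G, IsIsom g) {g : Iso} (hg : g ∈ G) (x y : Herm) :
    (sep G N (g x) (g y)).ncard = (sep G N x y).ncard := by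
  have : sep G N (g x) (g y) = (fun M => g M) '' sep G N x y := by
    ext M
    constructor
    · rintro ⟨h1, h2, h3⟩
      have hc : g (g⁻¹ M) = M := by
        change (g * g⁻¹) M = M
        rw [mul_inv_cancel]; rfl
      refine ⟨g⁻¹ M, ⟨apply_mem_walls h1 (G.inv_mem hg), ?_, ?_⟩, hc⟩
      · rw [← form_isom (hG _ hg), hc]; exact h2
      · rw [← form_isom (hG _ hg), hc]; exact h3
    · rintro ⟨M', ⟨h1, h2, h3⟩, rfl⟩
      refine ⟨apply_mem_walls h1 hg, ?_, ?_⟩
      · simp only [form_isom (hG _ hg)]; exact h2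
      · simp only [form_isom (hG _ hg)]; exact h3
  rw [this, Set.ncard_image_of_injective _ g.injective]

/-- additivity of the number of separating walls modulo two -/
lemma sep_add (hfin : ∀ x ∈ H3, ∀ y ∈ H3, (sep G N x y).Finite) {x y z : Herm} (hx : x ∈ H3)
    (hy : y ∈ H3) (hz : z ∈ H3) (ox : Off G N x) (oy : Off G N y) (oz : Off G N z) :
    ∃ k : ℕ, (sep G N x y).ncard + (sep G N y z).ncard = (sep G N x z).ncard + 2 * k := by
  classical
  -- four families of walls according to the signs at `x`, `y`, `z`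
  let A : Set Herm := {M | M ∈ walls G N ∧ form M x < 0 ∧ 0 < form M y ∧ 0 < form M z}
  let B : Set Herm := {M | M ∈ walls G N ∧ form M x < 0 ∧ 0 < form M y ∧ form M z < 0}
  let C : Set Herm := {M | M ∈ walls G N ∧ form M x < 0 ∧ form M y < 0 ∧ 0 < form M z}
  let E : Set Herm := {M | M ∈ walls G N ∧ 0 < form M x ∧ form M y < 0 ∧ 0 < form M z}
  have s1 : sep G N x y = A ∪ B := by
    ext M
    constructor
    · rintro ⟨h1, h2, h3⟩
      rcases lt_or_gt_of_ne (oz M h1) with h | h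
      · exact Or.inr ⟨h1, h2, h3, h⟩
      · exact Or.inl ⟨h1, h2, h3, h⟩
    · rintro (⟨h1, h2, h3, h4⟩ | ⟨h1, h2, h3, h4⟩) <;> exact ⟨h1, h2, h3⟩
  have s2 : sep G N y z = C ∪ E := by
    ext M
    constructor
    · rintro ⟨h1, h2, h3⟩
      rcases lt_or_gt_of_ne (ox M h1) with h | h
      · exact Or.inl ⟨h1, h, h2, h3⟩
      · exact Or.inr ⟨h1, h, h2, h3⟩
    · rintro (⟨h1, h2, h3, h4⟩ | ⟨h1, h2, h3, h4⟩) <;> exact ⟨h1, h3, h4⟩
  have s3 : sep G N x z = A ∪ C := by
    ext M
    constructor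
    · rintro ⟨h1, h2, h3⟩
      rcases lt_or_gt_of_ne (oy M h1) with h | h
      · exact Or.inr ⟨h1, h2, h, h3⟩
      · exact Or.inl ⟨h1, h2, h, h3⟩
    · rintro (⟨h1, h2, h3, h4⟩ | ⟨h1, h2, h3, h4⟩)
      · exact ⟨h1, h2, h4⟩
      · exact ⟨h1, h2, h4⟩
  have s4 : E = (fun M => -M) '' B := by
    ext M
    constructor
    · rintro ⟨h1, h2, h3, h4⟩
      refine ⟨-M, ⟨neg_mem_walls h1, ?_, ?_, ?_⟩, neg_neg M⟩ <;> rw [form_neg_left] <;> linarith
    · rintro ⟨M', ⟨h1, h2, h3, h4⟩, rfl⟩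
      refine ⟨neg_mem_walls h1, ?_, ?_, ?_⟩ <;> simp only [form_neg_left] <;> linarith
  have f1 := hfin x hx y hy
  have f2 := hfin y hy z hz
  have f3 := hfin x hx z hz
  rw [s1] at f1
  rw [s2] at f2
  rw [s3] at f3
  have fA : A.Finite := f1.subset Set.subset_union_left
  have fB : B.Finite := f1.subset Set.subset_union_right
  have fC : C.Finite := f2.subset Set.subset_union_left
  have fE : E.Finite := f2.subset Set.subset_union_right
  have dAB : Disjoint A B := by
    rw [Set.disjoint_left]; rintro M ⟨_, _, _, h⟩ ⟨_, _, _, h'⟩; linarith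
  have dCE : Disjoint C E := by
    rw [Set.disjoint_left]; rintro M ⟨_, h, _, _⟩ ⟨_, h', _, _⟩; linarith
  have dAC : Disjoint A C := by
    rw [Set.disjoint_left]; rintro M ⟨_, _, h, _⟩ ⟨_, _, h', _⟩; linarith
  have cE : E.ncard = B.ncard := by
    rw [s4, Set.ncard_image_of_injective _ neg_injective]
  refine ⟨B.ncard, ?_⟩
  rw [s1, s2, s3, Set.ncard_union_eq dAB fA fB, Set.ncard_union_eq dCE fC fE,
    Set.ncard_union_eq dAC fA fC, cE]
  ring

end Pool.Agent.MP5b7155
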